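import Mathlib

/-! Subcubes of `ι → α`, an Erdős–Ko–Rado stability lemma and a classification of the distance
sets of a clique and a coclique whose sizes multiply to the whole space. -/

set_option linter.unusedSectionVars false

namespace Pool.Agent.MP_92191b_al

open Finset

variable {ι α : Type} [Fintype ι] [DecidableEq ι] [Fintype α] [DecidableEq α]

/-- The subcube through `x` with free coordinates `D`. -/
def cube (x : ι → α) (D : Finset ι) : Finset (ι → α) :=
  Fintype.piFinset fun i => if i ∈ D then univ else {x i}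

theorem mem_cube {x y : ι → α} {D : Finset ι} : y ∈ cube x D ↔ ∀ i, i ∉ D → y i = x i := by
  simp only [cube, Fintype.mem_piFinset]
  refine forall_congr' fun i => ?_
  by_cases h : i ∈ D <;> simp [h]

theorem card_cube (x : ι → α) (D : Finset ι) : (cube x D).card = Fintype.card α ^ D.card := by
  rw [cube, Fintype.card_piFinset]
  simp only [apply_ite card, card_univ, card_singleton]
  rw [prod_ite_mem, univ_inter, prod_const]

theorem self_mem_cube (x : ι → α) (D : Finset ι) : x ∈ cube x D := mem_cube.2 fun _ _ => rfl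

theorem cube_mono {x : ι → α} {D E : Finset ι} (h : D ⊆ E) : cube x D ⊆ cube x E :=
  fun _ hy => mem_cube.2 fun i hi => mem_cube.1 hy i fun h' => hi (h h')

theorem cube_eq {x y : ι → α} {D : Finset ι} (h : y ∈ cube x D) : cube y D = cube x D := by
  ext z
  simp only [mem_cube] at *
  exact forall_congr' fun i => forall_congr' fun hi => by rw [h i hi]

theorem mem_cube_symm {x y : ι → α} {D : Finset ι} (h : y ∈ cube x D) : x ∈ cube y D :=
  mem_cube.2 fun i hi => (mem_cube.1 h i hi).symm

theorem cube_inter (x : ι → α) (A B : Finset ι) : cube x A ∩ cube x B = cube x (A ∩ B) := by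
  ext z
  simp only [mem_inter, mem_cube, not_and_or]
  exact ⟨fun h i hi => hi.elim (h.1 i) (h.2 i),
    fun h => ⟨fun i hi => h i (Or.inl hi), fun i hi => h i (Or.inr hi)⟩⟩

theorem update_mem_cube (x : ι → α) {D : Finset ι} {i : ι} (hi : i ∈ D) (c : α) :
    Function.update x i c ∈ cube x D :=
  mem_cube.2 fun _ hl => Function.update_of_ne (fun h => hl (by rw [h]; exact hi)) _ _

theorem dist_le_of_mem_cube {x y z : ι → α} {D : Finset ι} (hy : y ∈ cube x D)
    (hz : z ∈ cube x D) : hammingDist y z ≤ D.card := by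
  refine card_le_card fun i hi => ?_
  by_contra h
  exact (mem_filter.1 hi).2 ((mem_cube.1 hy i h).trans (mem_cube.1 hz i h).symm)

theorem subset_of_cube_subset [Nontrivial α] {x y : ι → α} {A B : Finset ι}
    (h : cube x A ⊆ cube y B) : A ⊆ B := by
  intro i hi
  by_contra hB
  obtain ⟨c, hc⟩ := exists_ne (x i)
  have h1 := mem_cube.1 (h (update_mem_cube x hi c)) i hB
  have h2 := mem_cube.1 (h (self_mem_cube x A)) i hB
  rw [Function.update_self] at h1
  exact hc (h1.trans h2.symm)

/-- A property that survives the change of one coordinate in `D` holds on the whole subcube. -/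
theorem cube_induction {p : (ι → α) → Prop} (D : Finset ι) {x : ι → α} (hx : p x)
    (h : ∀ y, ∀ i ∈ D, ∀ c, p y → p (Function.update y i c)) : ∀ y ∈ cube x D, p y := by
  induction D using Finset.induction_on with
  | empty =>
    intro y hy
    have : y = x := funext fun i => mem_cube.1 hy i (notMem_empty i)
    exact this ▸ hx
  | insert a D ha ih =>
    intro y hy
    have h1 : Function.update y a (x a) ∈ cube x D := by
      refine mem_cube.2 fun i hi => ?_
      by_cases hia : i = a
      · rw [hia, Function.update_self]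
      · rw [Function.update_of_ne hia]
        exact mem_cube.1 hy i (by simp [hia, hi])
    have h2 := h _ a (mem_insert_self a D) (y a)
      (ih (fun y i hi => h y i (mem_insert_of_mem hi)) _ h1)
    rwa [Function.update_idem, Function.update_eq_self] at h2

/-- The coordinates on which two members of `F` differ. -/
def free (F : Finset (ι → α)) : Finset ι := univ.filter fun i => ∃ x ∈ F, ∃ y ∈ F, x i ≠ y i

theorem mem_free {F : Finset (ι → α)} {i : ι} : i ∈ free F ↔ ∃ x ∈ F, ∃ y ∈ F, x i ≠ y i := by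
  simp [free]

theorem subset_cube_free {F : Finset (ι → α)} {x : ι → α} (hx : x ∈ F) : F ⊆ cube x (free F) :=
  fun y hy => mem_cube.2 fun _ hi => by_contra fun h => hi (mem_free.2 ⟨y, hy, x, hx, h⟩)

theorem free_mono {F G : Finset (ι → α)} (h : F ⊆ G) : free F ⊆ free G := fun _ hi => by
  obtain ⟨x, hx, y, hy, hne⟩ := mem_free.1 hi
  exact mem_free.2 ⟨x, h hx, y, h hy, hne⟩

theorem free_subset {F : Finset (ι → α)} {x : ι → α} {D : Finset ι} (h : F ⊆ cube x D) :
    free F ⊆ D := fun i hi => by
  obtain ⟨y, hy, z, hz, hne⟩ := mem_free.1 hi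
  by_contra hD
  exact hne ((mem_cube.1 (h hy) i hD).trans (mem_cube.1 (h hz) i hD).symm)

/-- Pigeonhole along one coordinate. -/
theorem card_le_slices (F : Finset (ι → α)) (i : ι) {N : ℕ}
    (h : ∀ c, (F.filter fun x => x i = c).card ≤ N) : F.card ≤ Fintype.card α * N := by
  rw [card_eq_sum_card_fiberwise (f := fun x => x i) (t := univ) fun _ _ => mem_univ _]
  exact (sum_le_card_nsmul _ _ _ fun c _ => h c).trans (by simp)

/-- If `a` fibres of size at most `N` fill `a * N` points, every fibre has size `N`. -/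
theorem fiber_eq {β γ : Type} [DecidableEq γ] {s : Finset β} {t : Finset γ} {g : β → γ} {N : ℕ}
    (hg : ∀ x ∈ s, g x ∈ t) (hle : ∀ c ∈ t, (s.filter fun x => g x = c).card ≤ N)
    (hs : t.card * N ≤ s.card) : ∀ c ∈ t, (s.filter fun x => g x = c).card = N := by
  intro c hc
  by_contra hne
  have h := sum_lt_sum hle ⟨c, hc, lt_of_le_of_ne (hle c hc) hne⟩
  rw [← card_eq_sum_card_fiberwise hg, sum_const, smul_eq_mul] at h
  omega

variable [Nontrivial α]

theorem one_lt_k : 1 < Fintype.card α := Fintype.one_lt_card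

theorem card_cube_le (x : ι → α) {D : Finset ι} {j : ℕ} (h : D.card ≤ j) :
    (cube x D).card ≤ Fintype.card α ^ j := by
  rw [card_cube]
  exact Nat.pow_le_pow_right one_lt_k.le h

/-- Erdős–Ko–Rado stability: a large family of diameter at most `j + 1` lies in a subcube. -/
theorem ekr_free {F : Finset (ι → α)} {j : ℕ} (hF : ∀ x ∈ F, ∀ y ∈ F, hammingDist x y ≤ j + 1)
    (hbig : 2 ^ Fintype.card ι * ((Fintype.card ι + 1) * Fintype.card α ^ j) < F.card) :
    (free F).card = j + 1 := by
  obtain ⟨y, hy⟩ : F.Nonempty := card_pos.1 (by omega)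
  have hp : Fintype.card α ^ j ≤ (Fintype.card ι + 1) * Fintype.card α ^ j :=
    Nat.le_mul_of_pos_left _ (Nat.succ_pos _)
  by_contra hne
  rcases Nat.lt_or_gt_of_ne hne with hlt | hgt
  · have h1 := (card_le_card (subset_cube_free hy)).trans (card_cube_le y (Nat.lt_succ_iff.1 hlt))
    have h2 : (Fintype.card ι + 1) * Fintype.card α ^ j ≤
        2 ^ Fintype.card ι * ((Fintype.card ι + 1) * Fintype.card α ^ j) :=
      Nat.le_mul_of_pos_left _ (by positivity)
    omega
  refine absurd hbig (not_lt.2 ?_)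
  rw [card_eq_sum_card_fiberwise (f := fun x => univ.filter fun i => x i ≠ y i) (t := univ)
    fun _ _ => mem_univ _]
  refine (sum_le_card_nsmul _ _ ((Fintype.card ι + 1) * Fintype.card α ^ j)
    fun A _ => ?_).trans (by simp)
  have hsub : ∀ x ∈ F.filter fun x => (univ.filter fun i => x i ≠ y i) = A, x ∈ cube y A := by
    intro x hx
    refine mem_cube.2 fun i hi => by_contra fun h => hi ?_
    rw [← (mem_filter.1 hx).2]
    exact mem_filter.2 ⟨mem_univ _, h⟩
  by_cases hA : A.card ≤ j
  · exact (card_le_card hsub).trans ((card_cube_le y hA).trans hp)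
  by_cases hA' : j + 1 < A.card
  · rw [filter_eq_empty_iff.2 fun x hx h => ?_]
    · simp
    · have := hF x hx y hy
      rw [hammingDist, h] at this
      omega
  obtain ⟨i, hi, hiA⟩ : ∃ i ∈ free F, i ∉ A := by
    by_contra! h
    have := card_le_card (show free F ⊆ A from h)
    omega
  obtain ⟨z, hz, hzi⟩ : ∃ z ∈ F, z i ≠ y i := by
    obtain ⟨u, hu, v, hv, huv⟩ := mem_free.1 hi
    by_cases h : u i = y i
    · exact ⟨v, hv, fun h' => huv (h.trans h'.symm)⟩
    · exact ⟨u, hu, h⟩
  have hcov : (F.filter fun x => (univ.filter fun i => x i ≠ y i) = A) ⊆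
      A.biUnion fun a => cube (Function.update y a (z a)) (A.erase a) := by
    intro x hx
    have hxA := mem_cube.1 (hsub x hx)
    obtain ⟨a, ha, hxa⟩ : ∃ a ∈ A, x a = z a := by
      by_contra! h
      have h1 : insert i A ⊆ univ.filter fun l => x l ≠ z l := by
        intro l hl
        refine mem_filter.2 ⟨mem_univ _, ?_⟩
        rcases mem_insert.1 hl with rfl | hl
        · rw [hxA l hiA]
          exact hzi.symm
        · exact h l hl
      have h2 := card_le_card h1
      have h3 := hF x (mem_filter.1 hx).1 z hz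
      rw [card_insert_of_notMem hiA] at h2
      rw [hammingDist] at h3
      omega
    refine mem_biUnion.2 ⟨a, ha, mem_cube.2 fun l hl => ?_⟩
    by_cases hla : l = a
    · rw [hla, Function.update_self, hxa]
    · rw [Function.update_of_ne hla]
      exact hxA l fun h => hl (mem_erase.2 ⟨hla, h⟩)
  refine (card_le_card hcov).trans ((card_biUnion_le_card_mul _ _ (Fintype.card α ^ j)
    fun a ha => card_cube_le _ ?_).trans (Nat.mul_le_mul_right _ ?_))
  · rw [card_erase_of_mem ha]
    omega
  · exact (card_le_univ A).trans (Nat.le_succ _)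

/-- Over a large alphabet the largest families of diameter `j + 1` are the subcubes. -/
theorem ekr (hk : 2 ^ Fintype.card ι * (Fintype.card ι + 1) < Fintype.card α)
    {F : Finset (ι → α)} {j : ℕ} (hF : ∀ x ∈ F, ∀ y ∈ F, hammingDist x y ≤ j + 1)
    (hbig : Fintype.card α ^ (j + 1) ≤ F.card) :
    ∃ A : Finset ι, A.card = j + 1 ∧ ∀ x ∈ F, F = cube x A := by
  have h : (free F).card = j + 1 := by
    refine ekr_free hF (lt_of_lt_of_le ?_ hbig)
    rw [← mul_assoc, pow_succ']
    exact Nat.mul_lt_mul_of_pos_right hk (pow_pos (by omega) _)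
  exact ⟨free F, h, fun x hx =>
    eq_of_subset_of_card_le (subset_cube_free hx) (by rw [card_cube, h]; exact hbig)⟩

theorem ekr_le (hk : 2 ^ Fintype.card ι * (Fintype.card ι + 1) < Fintype.card α)
    {F : Finset (ι → α)} {j : ℕ} (hF : ∀ x ∈ F, ∀ y ∈ F, hammingDist x y ≤ j + 1) :
    F.card ≤ Fintype.card α ^ (j + 1) := by
  by_contra! h
  obtain ⟨A, hA, h'⟩ := ekr hk hF h.le
  obtain ⟨x, hx⟩ : F.Nonempty := card_pos.1 (by omega)
  rw [h' x hx, card_cube, hA] at h
  exact lt_irrefl _ h

variable (ι α) in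
/-- Families inside a `d`-dimensional subcube with all distances in `S` have at most `N`
members. -/
def Bd (S : Set ℕ) (d N : ℕ) : Prop :=
  ∀ (F : Finset (ι → α)) (D : Finset ι) (x : ι → α), D.card = d → F ⊆ cube x D →
    (∀ y ∈ F, ∀ z ∈ F, y ≠ z → hammingDist y z ∈ S) → F.card ≤ N

theorem slice_subset {F : Finset (ι → α)} {D : Finset ι} {x : ι → α} (h : F ⊆ cube x D) (i : ι)
    (c : α) : (F.filter fun y => y i = c) ⊆ cube (Function.update x i c) (D.erase i) := by
  intro y hy
  refine mem_cube.2 fun l hl => ?_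
  by_cases hli : l = i
  · rw [hli, Function.update_self]
    exact (mem_filter.1 hy).2
  · rw [Function.update_of_ne hli]
    exact mem_cube.1 (h (mem_filter.1 hy).1) l fun h' => hl (mem_erase.2 ⟨hli, h'⟩)

theorem Bd.slice {S : Set ℕ} {d N : ℕ} (h : Bd ι α S d N) {F : Finset (ι → α)} {D : Finset ι}
    {x : ι → α} (hD : D.card = d + 1) (hF : F ⊆ cube x D)
    (hS : ∀ y ∈ F, ∀ z ∈ F, y ≠ z → hammingDist y z ∈ S) {i : ι} (hi : i ∈ D) (c : α) :
    (F.filter fun y => y i = c).card ≤ N :=
  h _ _ _ (by rw [card_erase_of_mem hi, hD]; rfl) (slice_subset hF i c)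
    fun y hy z hz => hS y (mem_filter.1 hy).1 z (mem_filter.1 hz).1

theorem Bd.step_mem {S : Set ℕ} {d N : ℕ} (h : Bd ι α S d N) :
    Bd ι α S (d + 1) (Fintype.card α * N) := by
  intro F D x hD hF hS
  obtain ⟨i, hi⟩ : D.Nonempty := card_pos.1 (by omega)
  exact card_le_slices F i (h.slice hD hF hS hi)

theorem exists_agree {F : Finset (ι → α)} {D : Finset ι} {x y z : ι → α} (hF : F ⊆ cube x D)
    (hy : y ∈ F) (hz : z ∈ F) (h : hammingDist y z ≠ D.card) : ∃ i ∈ D, y i = z i := by
  by_contra! h'
  refine h (le_antisymm (dist_le_of_mem_cube (hF hy) (hF hz)) (card_le_card fun i hi => ?_))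
  exact mem_filter.2 ⟨mem_univ _, h' i hi⟩

theorem Bd.step_notMem {S : Set ℕ} {d N : ℕ} (h : Bd ι α S d N) (hd : d + 1 ∉ S) :
    Bd ι α S (d + 1) ((d + 1) * N) := by
  intro F D x hD hF hS
  rcases F.eq_empty_or_nonempty with rfl | ⟨y, hy⟩
  · simp
  have hcov : F ⊆ D.biUnion fun i => F.filter fun z => z i = y i := by
    intro z hz
    obtain ⟨i, hi, h'⟩ := exists_agree hF hz hy (by
      intro he
      by_cases hzy : z = y
      · rw [hzy, hammingDist_self] at he
        omega
      · exact hd (by rw [← hD, ← he]; exact hS z hz y hy hzy))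
    exact mem_biUnion.2 ⟨i, hi, mem_filter.2 ⟨hz, h'⟩⟩
  rw [← hD]
  exact (card_le_card hcov).trans
    (card_biUnion_le_card_mul _ _ _ fun i hi => h.slice hD hF hS hi _)

open Classical in
/-- The number of elements of `S` in `[1, d]`. -/
noncomputable def cnt (S : Set ℕ) : ℕ → ℕ
  | 0 => 0
  | d + 1 => cnt S d + if d + 1 ∈ S then 1 else 0

theorem cnt_add_compl (S : Set ℕ) (d : ℕ) : cnt S d + cnt Sᶜ d = d := by
  induction d with
  | zero => rfl
  | succ d ih =>
    by_cases h : d + 1 ∈ S <;> simp [cnt, h] <;> omega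

theorem cnt_mono (S : Set ℕ) : Monotone (cnt S) :=
  monotone_nat_of_le_succ fun _ => Nat.le_add_right _ _

theorem cnt_eq {S : Set ℕ} {n : ℕ} (h : ∀ s, s < n → s + 1 ∈ S) : cnt S n = n := by
  induction n with
  | zero => rfl
  | succ n ih => rw [cnt, ih fun s hs => h s (by omega), if_pos (h n (by omega))]

theorem Bd.iter {S : Set ℕ} {d N : ℕ} (h : Bd ι α S d N) (e : ℕ) : ∃ N', Bd ι α S (d + e) N' ∧
    N' * Fintype.card α ^ cnt S d ≤ (d + e).factorial * N * Fintype.card α ^ cnt S (d + e) := by
  induction e with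
  | zero => exact ⟨N, h, Nat.mul_le_mul_right _ (Nat.le_mul_of_pos_left _ (Nat.factorial_pos _))⟩
  | succ e ih =>
    obtain ⟨N', h1, h2⟩ := ih
    rw [← add_assoc, cnt, Nat.factorial_succ]
    by_cases hS : d + e + 1 ∈ S
    · refine ⟨_, h1.step_mem, ?_⟩
      rw [if_pos hS, pow_succ]
      calc _ = N' * Fintype.card α ^ cnt S d * Fintype.card α * 1 := by ring
        _ ≤ (d + e).factorial * N * Fintype.card α ^ cnt S (d + e) * Fintype.card α *
            (d + e + 1) := Nat.mul_le_mul (Nat.mul_le_mul_right _ h2) (by omega)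
        _ = _ := by ring
    · refine ⟨_, h1.step_notMem hS, ?_⟩
      rw [if_neg hS, add_zero]
      calc _ = (d + e + 1) * (N' * Fintype.card α ^ cnt S d) := by ring
        _ ≤ (d + e + 1) * ((d + e).factorial * N * Fintype.card α ^ cnt S (d + e)) :=
          Nat.mul_le_mul_left _ h2
        _ = _ := by ring

theorem bd_zero (S : Set ℕ) : Bd ι α S 0 1 := by
  intro F D x hD hF _
  have := card_le_card hF
  rwa [card_cube, hD] at this

/-- The gap lemma: distances in `[1, j + 1] ∪ {d}` with `d ≥ j + 3` allow only `O(k ^ (j + 1))`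
points. -/
theorem bd_gap {S : Set ℕ} {j d : ℕ} (hd : j + 3 ≤ d)
    (hS : ∀ s ∈ S, s < d → s ≤ j + 1) :
    Bd ι α S d ((Fintype.card ι * (2 ^ Fintype.card ι * (Fintype.card ι + 1)) + 1) *
      Fintype.card α ^ (j + 1)) := by
  intro F D x hD hF hFS
  set B := 2 ^ Fintype.card ι * ((Fintype.card ι + 1) * Fintype.card α ^ j) with hB
  let sl : ι → α → Finset (ι → α) := fun i c => F.filter fun y => y i = c
  have hbig : ∀ i ∈ D, ∀ c, B < (sl i c).card → (free (sl i c)).card = j + 1 := by
    intro i hi c h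
    refine ekr_free (fun y hy z hz => ?_) h
    by_cases hyz : y = z
    · rw [hyz, hammingDist_self]
      omega
    refine hS _ (hFS y (mem_filter.1 hy).1 z (mem_filter.1 hz).1 hyz) ?_
    have := dist_le_of_mem_cube (slice_subset hF i c hy) (slice_subset hF i c hz)
    rw [card_erase_of_mem hi] at this
    omega
  let G := F.filter fun y => ∀ i ∈ D, B < (sl i (y i)).card
  have hbad : (F.filter fun y => ¬∀ i ∈ D, B < (sl i (y i)).card).card ≤
      Fintype.card ι * (Fintype.card α * B) := by
    have hcov : (F.filter fun y => ¬∀ i ∈ D, B < (sl i (y i)).card) ⊆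
        univ.biUnion fun i => F.filter fun y => (sl i (y i)).card ≤ B := by
      intro y hy
      obtain ⟨hy, h⟩ := mem_filter.1 hy
      push Not at h
      obtain ⟨i, -, h⟩ := h
      exact mem_biUnion.2 ⟨i, mem_univ _, mem_filter.2 ⟨hy, h⟩⟩
    refine (card_le_card hcov).trans (card_biUnion_le_card_mul _ _ _ fun i _ =>
      card_le_slices _ i fun c => ?_)
    by_cases h : (sl i c).card ≤ B
    · exact (card_le_card (monotone_filter_left _ (filter_subset _ _))).trans h
    · rw [filter_eq_empty_iff.2 ?_]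
      · simp
      · exact fun y hy hc => h (hc ▸ (mem_filter.1 hy).2)
  have hgood : G.card ≤ Fintype.card α ^ (j + 1) := by
    obtain ⟨i0, hi0⟩ : D.Nonempty := card_pos.1 (by omega)
    rw [pow_succ']
    refine card_le_slices _ i0 fun a => ?_
    rcases (G.filter fun y => y i0 = a).eq_empty_or_nonempty with he | ⟨y0, hy0⟩
    · simp [he]
    have hA : (free (sl i0 a)).card = j + 1 := by
      refine hbig i0 hi0 a ?_
      have := (mem_filter.1 (mem_filter.1 hy0).1).2 i0 hi0
      rwa [(mem_filter.1 hy0).2] at this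
    have hsubD : ∀ i c, free (sl i c) ⊆ D := fun i c =>
      free_subset ((filter_subset _ _).trans hF)
    obtain ⟨i1, hi1⟩ : (free (sl i0 a)).Nonempty := card_pos.1 (by omega)
    have key : ∀ b, Fintype.card α * ((G.filter fun y => y i0 = a).filter
        fun y => y i1 = b).card ≤ Fintype.card α ^ j := by
      intro b
      rcases ((G.filter fun y => y i0 = a).filter fun y => y i1 = b).eq_empty_or_nonempty with
        he | ⟨y, hy⟩
      · simp [he]
      obtain ⟨hy1, hyb⟩ := mem_filter.1 hy
      obtain ⟨hyG, hya⟩ := mem_filter.1 hy1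
      obtain ⟨hyF, hyg⟩ := mem_filter.1 hyG
      have hA1 : (free (sl i1 b)).card = j + 1 := hbig i1 (hsubD _ _ hi1) b (hyb ▸ hyg i1
        (hsubD _ _ hi1))
      have hy0' : y ∈ sl i0 a := mem_filter.2 ⟨hyF, hya⟩
      have hy1' : y ∈ sl i1 b := mem_filter.2 ⟨hyF, hyb⟩
      have hi1' : i1 ∉ free (sl i1 b) := fun h => by
        obtain ⟨u, hu, v, hv, huv⟩ := mem_free.1 h
        exact huv ((mem_filter.1 hu).2.trans (mem_filter.1 hv).2.symm)
      have hcover : D ⊆ free (sl i0 a) ∪ free (sl i1 b) := by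
        intro i2 hi2
        by_contra hn
        rw [mem_union, not_or] at hn
        have h0 : sl i0 a ⊆ sl i2 (y i2) := fun z hz => mem_filter.2 ⟨(mem_filter.1 hz).1,
          mem_cube.1 (subset_cube_free hy0' hz) i2 hn.1⟩
        have h1 : sl i1 b ⊆ sl i2 (y i2) := fun z hz => mem_filter.2 ⟨(mem_filter.1 hz).1,
          mem_cube.1 (subset_cube_free hy1' hz) i2 hn.2⟩
        have h2 := card_le_card (insert_subset (free_mono h0 hi1) (free_mono h1))
        rw [card_insert_of_notMem hi1', hbig i2 hi2 _ (hyg i2 hi2)] at h2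
        omega
      have h3 := card_le_card hcover
      have h4 := card_union_add_card_inter (free (sl i0 a)) (free (sl i1 b))
      have h5 : ((G.filter fun y => y i0 = a).filter fun y => y i1 = b) ⊆
          cube y (free (sl i0 a) ∩ free (sl i1 b)) := by
        intro z hz
        obtain ⟨hz1, hzb⟩ := mem_filter.1 hz
        obtain ⟨hzG, hza⟩ := mem_filter.1 hz1
        rw [← cube_inter, mem_inter]
        exact ⟨subset_cube_free hy0' (mem_filter.2 ⟨(mem_filter.1 hzG).1, hza⟩),
          subset_cube_free hy1' (mem_filter.2 ⟨(mem_filter.1 hzG).1, hzb⟩)⟩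
      refine (Nat.mul_le_mul_left _ (card_le_card h5)).trans ?_
      rw [card_cube, ← pow_succ']
      exact Nat.pow_le_pow_right one_lt_k.le (by omega)
    rw [card_eq_sum_card_fiberwise (f := fun y => y i1) (t := univ) fun _ _ => mem_univ _]
    refine Nat.le_of_mul_le_mul_left ?_ (lt_trans zero_lt_one (one_lt_k (α := α)))
    rw [mul_sum]
    exact (sum_le_card_nsmul _ _ _ fun b _ => key b).trans (by simp)
  have := card_filter_add_card_filter_not (s := F) fun y => ∀ i ∈ D, B < (sl i (y i)).card
  calc F.card ≤ Fintype.card α ^ (j + 1) + Fintype.card ι * (Fintype.card α * B) := by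
        rw [← this]
        exact Nat.add_le_add hgood hbad
    _ = _ := by rw [hB]; ring

/-- If a family with distances in `S ∋ 1` and a family with distances outside `S` have sizes whose
product is at least the size of the space, then `S` is an initial interval. -/
theorem classify {S : Set ℕ} (h1 : 1 ∈ S) (hm : 1 ≤ Fintype.card ι)
    (hk : (Fintype.card ι).factorial ^ 2 *
      (Fintype.card ι * (2 ^ Fintype.card ι * (Fintype.card ι + 1)) + 1) < Fintype.card α)
    {K C : Finset (ι → α)} (hK : ∀ y ∈ K, ∀ z ∈ K, y ≠ z → hammingDist y z ∈ S)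
    (hC : ∀ y ∈ C, ∀ z ∈ C, y ≠ z → hammingDist y z ∉ S)
    (hKC : Fintype.card α ^ Fintype.card ι ≤ K.card * C.card) :
    ∃ j, j + 1 ≤ Fintype.card ι ∧ ∀ s, 1 ≤ s → s ≤ Fintype.card ι → (s ∈ S ↔ s ≤ j + 1) := by
  classical
  set m := Fintype.card ι with hmd
  set k := Fintype.card α with hkd
  have hex : ∃ n, n + 1 ∉ S ∨ m ≤ n := ⟨m, Or.inr le_rfl⟩
  have hn := Nat.find_spec hex
  have hlt : ∀ s, s < Nat.find hex → s + 1 ∈ S ∧ s < m := fun s hs => by
    have := Nat.find_min hex hs
    push Not at this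
    exact this
  obtain ⟨j, hj⟩ : ∃ j, Nat.find hex = j + 1 := by
    refine Nat.exists_eq_succ_of_ne_zero fun h0 => ?_
    rw [h0] at hn
    rcases hn with h | h
    · exact h h1
    · omega
  rw [hj] at hn hlt
  refine ⟨j, (hlt j (by omega)).2, fun s hs1 hsm => ⟨fun hs => ?_, fun hs => ?_⟩⟩
  swap
  · have := (hlt (s - 1) (by omega)).1
    rwa [Nat.sub_add_cancel hs1] at this
  by_contra hsj
  have hex' : ∃ d, d ∈ S ∧ j + 1 < d := ⟨s, hs, by omega⟩
  obtain ⟨hdS, hdj⟩ := Nat.find_spec hex'
  have hds : Nat.find hex' ≤ s := Nat.find_min' hex' ⟨hs, by omega⟩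
  have hmin : ∀ s ∈ S, s < Nat.find hex' → s ≤ j + 1 := fun s hs h => by
    by_contra h'
    exact Nat.find_min hex' h ⟨hs, by omega⟩
  generalize Nat.find hex' = d at *
  have hd : j + 3 ≤ d := by
    by_contra h
    have : d = j + 1 + 1 := by omega
    rcases hn with h' | h'
    · exact h' (this ▸ hdS)
    · omega
  obtain ⟨x⟩ : Nonempty (ι → α) := inferInstance
  have huniv : ∀ F : Finset (ι → α), F ⊆ cube x univ := fun F y _ =>
    mem_cube.2 fun i hi => absurd (mem_univ i) hi
  obtain ⟨N, hN, hN'⟩ := (bd_gap (ι := ι) (α := α) hd hmin).iter (m - d)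
  obtain ⟨M, hM, hM'⟩ := (bd_zero (ι := ι) (α := α) Sᶜ).iter m
  rw [show d + (m - d) = m by omega] at hN hN'
  rw [zero_add] at hM hM'
  have hKN := hN K univ x rfl (huniv K) hK
  have hCM := hM C univ x rfl (huniv C) hC
  have hcnt : j + 2 ≤ cnt S d := by
    obtain ⟨d, rfl⟩ : ∃ e, d = e + 1 := ⟨d - 1, by omega⟩
    have := cnt_mono S (show j + 1 ≤ d by omega)
    rw [cnt_eq fun s hs => (hlt s hs).1] at this
    rw [cnt, if_pos hdS]
    omega
  have hk1 : 1 < k := one_lt_k
  simp only [cnt, pow_zero, mul_one] at hM'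
  rw [← hmd, ← hkd] at hN'
  set c := m * (2 ^ m * (m + 1)) + 1
  have h2 : k ^ m * k ^ (j + 1) * k ≤ k ^ m * k ^ (j + 1) * (m.factorial ^ 2 * c) :=
    calc k ^ m * k ^ (j + 1) * k = k ^ m * k ^ (j + 2) := by ring
      _ ≤ N * M * k ^ cnt S d :=
        Nat.mul_le_mul (hKC.trans (Nat.mul_le_mul hKN hCM)) (Nat.pow_le_pow_right hk1.le hcnt)
      _ = N * k ^ cnt S d * M := by ring
      _ ≤ m.factorial * (c * k ^ (j + 1)) * k ^ cnt S m * (m.factorial * k ^ cnt Sᶜ m) :=
        Nat.mul_le_mul hN' hM'
      _ = k ^ (cnt S m + cnt Sᶜ m) * k ^ (j + 1) * (m.factorial ^ 2 * c) := by ring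
      _ = _ := by rw [cnt_add_compl]
  have := Nat.le_of_mul_le_mul_left h2 (by positivity)
  omega

end Pool.Agent.MP_92191b_al
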