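import Mathlib
import Pool.Agent.MP_92191b_al.X4.ThmA

namespace Pool.Agent.MP_92191b_al.KeptAtLeastFour

open Pool.Agent.MP_92191b_al

/-- For every `k ≥ 4` and every `m ≥ 2`, the wreath product `S_k wr S_m` in its power action
synchronizes every non-uniform map. -/
theorem result :
    ∀ k m : ℕ, 4 ≤ k → 2 ≤ m →
    ∀ f : (Fin m → Fin k) → (Fin m → Fin k),
      (∃ a b : Fin m → Fin k,
        (Finset.univ.filter (fun x => f x = f a)).card ≠
          (Finset.univ.filter (fun x => f x = f b)).card) →
      ∃ c ∈ Submonoid.closure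
          ({g : Function.End (Fin m → Fin k) |
              ∃ (σ : Fin m → Equiv.Perm (Fin k)) (π : Equiv.Perm (Fin m)),
                g = fun x i => σ i (x (π i))} ∪ {(f : Function.End (Fin m → Fin k))}),
        ∃ y : Fin m → Fin k, ∀ x, c x = y := by
  rintro k m hk - f ⟨a, b, hab⟩
  by_contra hc
  exact hab (X.unifX (by omega) (X4.thmA_ge4 hk) f (fun c h h' => hc ⟨c, h, h'⟩) a b)

end Pool.Agent.MP_92191b_al.KeptAtLeastFour
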