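import Pool.Agent.MP_92191b_al.Level

/-! A `t`-intersecting family whose level `t + 1` vanishes has `t` fixed coordinates. -/

set_option linter.unusedSectionVars false

namespace Pool.Agent.MP_92191b_al

open Finset

variable {ι α : Type} [Fintype ι] [DecidableEq ι] [Fintype α] [DecidableEq α]

/-- All levels from `1` to `t` vanish. -/
def Str (K : Finset (ι → α)) (D : Finset ι) (t : ℕ) : Prop :=
  ∀ I ⊆ D, I.Nonempty → I.card ≤ t → ∀ y, lev K I y = 0

theorem Str.card {K : Finset (ι → α)} {D I : Finset ι} {t : ℕ} (h : Str K D t) (hI : I ⊆ D)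
    (ht : I.card ≤ t) (y : ι → α) :
    (K.filter fun x => ∀ i ∈ I, x i = y i).card * Fintype.card α ^ I.card = K.card := by
  have h1 : ∀ x : ι → α, (if ∀ i ∈ I, x i = y i then 1 else 0 : ℚ) * Fintype.card α ^ I.card =
      ∑ J ∈ I.powerset, ∏ i ∈ J, wt (x i) (y i) := by
    intro x
    rw [← prod_one_add, ← prod_const]
    simp only [wt, add_sub_cancel, prod_mul_distrib, prod_boole]
    rw [mul_comm]
    congr
  have h2 : ((K.filter fun x => ∀ i ∈ I, x i = y i).card : ℚ) * Fintype.card α ^ I.card =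
      K.card := by
    rw [card_filter, Nat.cast_sum, sum_mul]
    simp only [Nat.cast_ite, Nat.cast_one, Nat.cast_zero, h1]
    rw [sum_comm, sum_eq_single ∅]
    · simp
    · exact fun J hJ hne => h J ((mem_powerset.1 hJ).trans hI) (nonempty_iff_ne_empty.2 hne)
        ((card_le_card (mem_powerset.1 hJ)).trans ht) y
    · simp
  exact_mod_cast h2

theorem filter_subset_cube {K : Finset (ι → α)} {D : Finset ι} {x : ι → α} (h : K ⊆ cube x D)
    (I : Finset ι) : (K.filter fun y => ∀ i ∈ I, y i = x i) ⊆ cube x (D \ I) := by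
  intro y hy
  refine mem_cube.2 fun i hi => ?_
  by_cases hiI : i ∈ I
  · exact (mem_filter.1 hy).2 i hiI
  · exact mem_cube.1 (h (mem_filter.1 hy).1) i fun h' => hi (mem_sdiff.2 ⟨h', hiI⟩)

variable [Nontrivial α]

/-- An orthogonal array of strength `t` has all the `t` largest distances. -/
theorem Str.far {K : Finset (ι → α)} {D : Finset ι} {t s : ℕ} (h : Str K D t) (hs : s < t)
    (ht : t ≤ D.card) (hk : D.card < Fintype.card α) {x : ι → α} (hx : x ∈ K)
    (hK : K ⊆ cube x D) : ∃ y ∈ K, hammingDist x y + s = D.card := by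
  by_contra! hcon
  obtain ⟨I, hI, hIs⟩ := exists_subset_card_eq (s := D) (n := s) (by omega)
  have h1 := h.card hI (by omega) x
  set F := K.filter fun y => ∀ i ∈ I, y i = x i with hF
  have hxF : x ∈ F := mem_filter.2 ⟨hx, fun _ _ => rfl⟩
  have hcard : (D \ I).card = D.card - s := by rw [card_sdiff_of_subset hI, hIs]
  have hcov : F ⊆ (D \ I).biUnion fun j => K.filter fun y => ∀ i ∈ insert j I, y i = x i := by
    intro y hy
    obtain ⟨j, hj, he⟩ := exists_agree (filter_subset_cube hK I) hxF hy (by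
      have := hcon y (mem_filter.1 hy).1
      omega)
    exact mem_biUnion.2 ⟨j, hj, mem_filter.2 ⟨(mem_filter.1 hy).1, by
      simpa [he] using (mem_filter.1 hy).2⟩⟩
  have h2 : F.card * Fintype.card α ≤ (D \ I).card * F.card := by
    refine (Nat.mul_le_mul_right _ ((card_le_card hcov).trans card_biUnion_le)).trans ?_
    rw [sum_mul, ← smul_eq_mul, ← sum_const]
    refine sum_le_sum fun j hj => le_of_eq ?_
    have h3 := h.card (insert_subset (mem_sdiff.1 hj).1 hI)
      (by rw [card_insert_of_notMem (mem_sdiff.1 hj).2]; omega) x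
    rw [card_insert_of_notMem (mem_sdiff.1 hj).2, ← h1, pow_succ', ← mul_assoc] at h3
    exact Nat.eq_of_mul_eq_mul_right (pow_pos (by omega) _) h3
  have h4 : 0 < F.card := card_pos.2 ⟨x, hxF⟩
  have h5 := Nat.mul_lt_mul_of_pos_left (show (D \ I).card < Fintype.card α by omega) h4
  rw [mul_comm] at h5
  omega

theorem choose_sub_le {Z t h : ℕ} (hZ : t ≤ Z) (hh : h ≤ t) :
    Z.choose (t - h) ≤ Z.choose t * t ^ h := by
  induction h with
  | zero => simp
  | succ h ih =>
    have h1 := Nat.choose_succ_right_eq Z (t - (h + 1))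
    rw [show t - (h + 1) + 1 = t - h by omega] at h1
    calc Z.choose (t - (h + 1)) ≤ Z.choose (t - (h + 1)) * (Z - (t - (h + 1))) :=
          Nat.le_mul_of_pos_right _ (by omega)
      _ = Z.choose (t - h) * (t - h) := h1.symm
      _ ≤ Z.choose t * t ^ h * t := Nat.mul_le_mul (ih (by omega)) (by omega)
      _ = _ := by ring

theorem geom_le {ρ : ℚ} (h0 : 0 ≤ ρ) (h1 : ρ ≤ 1 / 2) (n : ℕ) :
    ∑ h ∈ range (n + 1), ρ ^ h + 2 * ρ ^ (n + 1) ≤ 1 + 2 * ρ := by
  induction n with
  | zero => simp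
  | succ n ih =>
    rw [sum_range_succ, pow_succ ρ (n + 1)]
    have := mul_le_mul_of_nonneg_left h1 (pow_nonneg h0 (n + 1))
    linarith

omit [Fintype ι] in
theorem sum_pow_sdiff {E A : Finset ι} {t : ℕ} (hA : A ⊆ E) (ht : t ≤ A.card) {r : ℚ} (h0 : 0 ≤ r)
    (h1 : t * (E.card - t : ℕ) * r ≤ 1 / 2) :
    ∑ I ∈ powersetCard t E, r ^ (I \ A).card ≤
      A.card.choose t * (1 + 2 * (t * (E.card - t : ℕ) * r)) := by
  rw [← sum_fiberwise_of_maps_to (g := fun I => (I \ A).card) (t := range (t + 1)) fun I hI =>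
    mem_range.2 (Nat.lt_succ_of_le ((card_le_card sdiff_subset).trans
      (mem_powersetCard.1 hI).2.le))]
  have h2 := geom_le (by positivity) h1 t
  refine le_trans ?_ (mul_le_mul_of_nonneg_left (le_trans (le_add_of_nonneg_right
    (by positivity)) h2) (by positivity))
  rw [mul_sum]
  refine sum_le_sum fun h hh => ?_
  rw [sum_congr rfl fun I hI => by rw [(mem_filter.1 hI).2], sum_const, nsmul_eq_mul, mul_pow,
    ← mul_assoc]
  refine mul_le_mul_of_nonneg_right ?_ (by positivity)
  have h3 : ((powersetCard t E).filter fun I => (I \ A).card = h).card ≤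
      (powersetCard (t - h) A ×ˢ powersetCard h (E \ A)).card := by
    refine card_le_card_of_injOn (fun I => (I ∩ A, I \ A)) (fun I hI => ?_) fun I _ J _ he => ?_
    · obtain ⟨hI, hh⟩ := mem_filter.1 (mem_coe.1 hI)
      obtain ⟨hIE, hIt⟩ := mem_powersetCard.1 hI
      have := card_sdiff_add_card_inter I A
      exact mem_coe.2 (mem_product.2 ⟨mem_powersetCard.2 ⟨inter_subset_right, by simp only; omega⟩,
        mem_powersetCard.2 ⟨sdiff_subset_sdiff hIE subset_rfl, hh⟩⟩)
    · obtain ⟨h4, h5⟩ := Prod.ext_iff.1 he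
      simp only at h4 h5
      rw [← sdiff_union_inter I A, h4, h5, sdiff_union_inter]
  rw [card_product, card_powersetCard, card_powersetCard, card_sdiff_of_subset hA] at h3
  have h4 : (E.card - A.card).choose h ≤ (E.card - t) ^ h :=
    (Nat.choose_le_pow _ _).trans (Nat.pow_le_pow_left (by omega) _)
  have h5 := h3.trans (Nat.mul_le_mul (choose_sub_le ht (Nat.lt_succ_iff.1 (mem_range.1 hh))) h4)
  rw [mul_assoc, ← mul_pow] at h5
  exact_mod_cast h5

theorem prod_wt (c x : ι → α) (I E : Finset ι) (hI : I ⊆ E) : ∏ i ∈ I, wt (c i) (x i) =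
    ((Fintype.card α : ℚ) - 1) ^ (I ∩ E.filter fun i => c i = x i).card *
      (-1) ^ (I \ E.filter fun i => c i = x i).card := by
  rw [← prod_inter_mul_prod_sdiff I (E.filter fun i => c i = x i), ← prod_const, ← prod_const]
  congr 1
  · exact prod_congr rfl fun i hi => by simp [wt, (mem_filter.1 (mem_inter.1 hi).2).2]
  · refine prod_congr rfl fun i hi => ?_
    have : c i ≠ x i := fun h => (mem_sdiff.1 hi).2 (mem_filter.2 ⟨hI (mem_sdiff.1 hi).1, h⟩)
    simp [wt, this]

theorem dist_add_agree {E : Finset ι} {x y : ι → α} (h : y ∈ cube x E) :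
    hammingDist x y + (E.filter fun i => y i = x i).card = E.card := by
  rw [← card_filter_add_card_filter_not (s := E) fun i => y i = x i, add_comm, hammingDist]
  congr 2
  ext i
  have := mem_cube.1 h i
  simp only [mem_filter, mem_univ, true_and, eq_comm (a := x i), ne_eq]
  tauto

/-- Positivity of the test function. -/
theorem test_pos {E A : Finset ι} {t : ℕ} (hA : A ⊆ E) (ht : t ≤ A.card) (ht0 : 1 ≤ t)
    (htE : t < E.card) {k : ℕ} (hk : (E.card + 1) ^ 2 ≤ k) (N : ι → ℕ) (hN : ∀ j ∈ A, N j = 1)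
    (hbad : 1 ≤ A.card - t + ∑ j ∈ E \ A, N j) (m : ι → ℚ) (hm : ∀ j, 0 ≤ m j ∧ m j ≤ 3) :
    0 < ∑ I ∈ powersetCard t E, ((k : ℚ) - 1) ^ (I ∩ A).card * (-1) ^ (I \ A).card *
      ∑ j ∈ E \ I, ((k : ℚ) * N j - m j) := by
  obtain ⟨M, hM⟩ : ∃ M, E.card = t + M := ⟨E.card - t, by omega⟩
  have hM' : E.card - t = M := by omega
  have hkq : ((t : ℚ) + M + 1) ^ 2 ≤ k := by rw [hM] at hk; exact_mod_cast hk
  have ht1 : (1 : ℚ) ≤ t := by exact_mod_cast ht0
  have hM1 : (1 : ℚ) ≤ M := by exact_mod_cast (show 1 ≤ M by omega)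
  set B : ℕ := A.card - t + ∑ j ∈ E \ A, N j with hB
  have hB1 : (1 : ℚ) ≤ B := by exact_mod_cast hbad
  set κ : ℚ := k - 1 with hκ
  have hκ0 : 0 < κ := by nlinarith
  have hk3 : 3 * (M : ℚ) ≤ k := by nlinarith
  have hterm : ∀ I ∈ powersetCard t E,
      κ ^ t * ((if I ⊆ A then 2 * (k : ℚ) * B - 3 * M else 0) - k * B * (2 / κ) ^ (I \ A).card) ≤
        κ ^ (I ∩ A).card * (-1) ^ (I \ A).card * ∑ j ∈ E \ I, ((k : ℚ) * N j - m j) := by
    intro I hI
    obtain ⟨hIE, hIt⟩ := mem_powersetCard.1 hI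
    have hc1 := card_sdiff_add_card_inter I A
    have hc2 := card_sdiff_add_card_inter A I
    rw [inter_comm] at hc2
    have hEI : (E \ I).card = M := by rw [card_sdiff_of_subset hIE]; omega
    have hm0 : 0 ≤ ∑ j ∈ E \ I, m j := sum_nonneg fun j _ => (hm j).1
    have hm3 : ∑ j ∈ E \ I, m j ≤ 3 * M := by
      refine (sum_le_card_nsmul _ _ 3 fun j _ => (hm j).2).trans ?_
      rw [hEI, nsmul_eq_mul, mul_comm]
    have hsplit : ∑ j ∈ E \ I, N j = (A \ I).card + ∑ j ∈ (E \ A) \ I, N j := by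
      rw [card_eq_sum_ones, sum_congr rfl fun j hj => (hN j (mem_sdiff.1 hj).1).symm, ← sum_union]
      · congr 1
        ext j
        have := @hA j
        simp only [mem_sdiff, mem_union]
        tauto
      · exact disjoint_of_subset_left sdiff_subset
          (disjoint_of_subset_right sdiff_subset disjoint_sdiff)
    have hle : ∑ j ∈ (E \ A) \ I, N j ≤ ∑ j ∈ E \ A, N j := sum_le_sum_of_subset sdiff_subset
    rw [sum_sub_distrib, ← mul_sum, ← Nat.cast_sum]
    by_cases hIA : I ⊆ A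
    · have h0 : (I \ A).card = 0 := by rw [sdiff_eq_empty_iff_subset.2 hIA, card_empty]
      have h1 : (E \ A) \ I = E \ A := sdiff_eq_self_of_disjoint
        (disjoint_of_subset_right hIA sdiff_disjoint)
      have h2 : ∑ j ∈ E \ I, N j = B := by rw [hsplit, h1, hB]; omega
      rw [if_pos hIA, h0, h2, show (I ∩ A).card = t by omega, pow_zero, pow_zero, mul_one, mul_one]
      exact mul_le_mul_of_nonneg_left (by linarith) (by positivity)
    · have h0 : 1 ≤ (I \ A).card := card_pos.2 (sdiff_nonempty.2 hIA)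
      generalize (I \ A).card = h at *
      generalize (I ∩ A).card = g at *
      have h1 : (1 : ℚ) ≤ (∑ j ∈ E \ I, N j : ℕ) := by exact_mod_cast (show 1 ≤ _ by omega)
      have h2 : ((∑ j ∈ E \ I, N j : ℕ) : ℚ) ≤ B * 2 ^ h := by
        have h3 : h + 1 ≤ 2 ^ h := Nat.lt_two_pow_self
        have h4 : B * (h + 1) ≤ B * 2 ^ h := Nat.mul_le_mul_left _ h3
        have h5 : h ≤ B * h := Nat.le_mul_of_pos_left _ hbad
        exact_mod_cast (show ∑ j ∈ E \ I, N j ≤ B * 2 ^ h by rw [mul_add] at h4; omega)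
      generalize ((∑ j ∈ E \ I, N j : ℕ) : ℚ) = T at *
      have hk0 : (0 : ℚ) ≤ k := by positivity
      have h3 : 0 ≤ k * T - ∑ j ∈ E \ I, m j := by nlinarith
      have h4 : k * T - ∑ j ∈ E \ I, m j ≤ k * (B * 2 ^ h) := by nlinarith
      have h5 : (-1 : ℚ) ≤ (-1) ^ h := by rcases neg_one_pow_eq_or ℚ h with h | h <;> simp [h]
      rw [if_neg hIA, ← hIt, ← hc1, pow_add, div_pow]
      calc κ ^ h * κ ^ g * (0 - k * B * (2 ^ h / κ ^ h)) = κ ^ g * (-1 * (k * (B * 2 ^ h))) := by
            field_simp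
            ring
        _ ≤ κ ^ g * ((-1) ^ h * (k * T - ∑ j ∈ E \ I, m j)) :=
            mul_le_mul_of_nonneg_left (by nlinarith) (by positivity)
        _ = _ := by ring
  refine lt_of_lt_of_le ?_ (sum_le_sum hterm)
  rw [← mul_sum, sum_sub_distrib, ← mul_sum, ← sum_filter, sum_const, nsmul_eq_mul]
  have h1 : ((powersetCard t E).filter fun I => I ⊆ A) = powersetCard t A := by
    ext I
    simp only [mem_filter, mem_powersetCard]
    exact ⟨fun h => ⟨h.2, h.1.2⟩, fun h => ⟨⟨h.1.trans hA, h.2⟩, h.1⟩⟩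
  have h2 := sum_pow_sdiff hA ht (r := 2 / κ) (by positivity) (by
    rw [hM', mul_div_assoc', div_le_div_iff₀ hκ0 two_pos]
    nlinarith [sq_nonneg ((t : ℚ) - M)])
  rw [h1, card_powersetCard]
  rw [hM'] at h2
  have h3 : (0 : ℚ) < A.card.choose t := by exact_mod_cast Nat.choose_pos ht
  have h4 : 3 * (M : ℚ) + 4 * (t * M) < κ := by
    have h5 : (M : ℚ) - t ≤ (M - t) ^ 2 := by exact_mod_cast Int.le_self_sq ((M : ℤ) - t)
    nlinarith
  have h5 : k * B * (1 + 2 * (t * M * (2 / κ))) < 2 * k * B - 3 * M := by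
    have h6 : 2 * (t * M * (2 / κ)) + 3 * M / κ < 1 := by
      rw [show 2 * (t * M * (2 / κ)) + 3 * M / κ = (3 * (M : ℚ) + 4 * (t * M)) / κ by ring,
        div_lt_one hκ0]
      exact h4
    have h7 : 3 * (M : ℚ) ≤ k * B * (3 * M / κ) := by
      rw [mul_div_assoc', le_div_iff₀ hκ0]
      have : κ ≤ k * B := by nlinarith
      nlinarith
    have h8 : (0 : ℚ) < k * B := by nlinarith
    nlinarith
  refine mul_pos (by positivity) ?_
  have h6 := mul_le_mul_of_nonneg_left h2 (show (0 : ℚ) ≤ k * B by positivity)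
  nlinarith

theorem key {C : Finset (ι → α)} {E : Finset ι} {t : ℕ} (ht0 : 1 ≤ t) (htE : t < E.card)
    (hk : (E.card + 1) ^ 2 ≤ Fintype.card α) (hC : ∀ x ∈ C, C ⊆ cube x E)
    (hint : ∀ c ∈ C, ∀ c' ∈ C, hammingDist c c' + t ≤ E.card)
    (hlev : ∀ J ⊆ E, J.card = t + 1 → ∀ y, lev C J y = 0) {x : ι → α} (hx : x ∈ C) :
    ∃ F ⊆ E, F.card = t ∧ ∀ c ∈ C, ∀ i ∈ F, c i = x i := by
  have hag : ∀ c ∈ C, ∀ z ∈ C, t ≤ (E.filter fun i => c i = z i).card := fun c hc z hz => by
    have := dist_add_agree (hC z hz hc)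
    have := hint z hz c hc
    omega
  have good : ∀ z ∈ C, ∀ z' ∈ C, ∃ c ∈ C, (E.filter fun i => c i = x i).card = t ∧
      (∀ i ∈ E, c i = x i → z i = x i) ∧ ∀ i ∈ E, c i = x i → z' i = x i := by
    intro z hz z' hz'
    by_contra hcon
    have hzero : ∀ (u : ι → α), ∀ I ∈ powersetCard t E, ∀ j ∈ E \ I,
        ∑ c ∈ C, (∏ i ∈ I, wt (c i) (x i)) * wt (c j) (u j) = 0 := by
      intro u I hI j hj
      obtain ⟨hIE, hIt⟩ := mem_powersetCard.1 hI
      obtain ⟨hjE, hjI⟩ := mem_sdiff.1 hj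
      rw [← hlev (insert j I) (insert_subset hjE hIE) (by rw [card_insert_of_notMem hjI, hIt])
        (Function.update x j (u j))]
      refine sum_congr rfl fun c _ => ?_
      rw [prod_insert hjI, Function.update_self, mul_comm]
      congr 1
      exact prod_congr rfl fun i hi => by
        rw [Function.update_of_ne fun h => hjI (by rw [← h]; exact hi)]
    have hsum : ∑ c ∈ C, ∑ I ∈ powersetCard t E, (∏ i ∈ I, wt (c i) (x i)) * ∑ j ∈ E \ I,
        (wt (c j) (x j) + (if z j = x j then 0 else 1) * wt (c j) (z j) +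
          (if z' j = x j then 0 else 1) * wt (c j) (z' j)) = 0 := by
      rw [sum_comm]
      refine sum_eq_zero fun I hI => ?_
      simp only [mul_sum]
      rw [sum_comm]
      refine sum_eq_zero fun j hj => ?_
      simp only [mul_add, sum_add_distrib, mul_left_comm (∏ i ∈ I, wt _ (x i)), ← mul_sum,
        hzero _ I hI j hj, mul_zero, add_zero]
    refine (sum_pos (fun c hc => ?_) ⟨x, hx⟩).ne' hsum
    let N : ι → ℕ := fun j => (if c j = x j then 1 else 0) +
      (if z j = x j then 0 else 1) * (if c j = z j then 1 else 0) +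
      (if z' j = x j then 0 else 1) * (if c j = z' j then 1 else 0)
    refine lt_of_lt_of_eq (test_pos (filter_subset (fun i => c i = x i) E) (hag c hc x hx) ht0 htE
      hk N (fun j hj => ?_) ?_
      (fun j => 1 + (if z j = x j then 0 else 1) + if z' j = x j then 0 else 1)
      fun j => by split_ifs <;> norm_num) (sum_congr rfl fun I hI => ?_)
    · have := (mem_filter.1 hj).2
      simp only [N, this, if_true, eq_comm (a := x j)]
      split_ifs <;> rfl
    · by_contra h
      have h1 := hag c hc x hx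
      have h2 : (E.filter fun i => c i = x i).card = t := by omega
      have h3 : ∀ j ∈ E, c j ≠ x j → N j = 0 := fun j hj hne =>
        sum_eq_zero_iff.1 (show ∑ j ∈ E \ E.filter fun i => c i = x i, N j = 0 by omega) j
          (mem_sdiff.2 ⟨hj, fun h => hne (mem_filter.1 h).2⟩)
      have h4 : ∀ u ∈ C, (∀ j ∈ E, c j = u j → c j = x j) → ∀ i ∈ E, c i = x i → u i = x i := by
        intro u hu h i hi hci
        have h5 : (E.filter fun i => c i = u i) = E.filter fun i => c i = x i :=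
          eq_of_subset_of_card_le (fun j hj => mem_filter.2 ⟨(mem_filter.1 hj).1,
            h j (mem_filter.1 hj).1 (mem_filter.1 hj).2⟩) (h2.trans_le (hag c hc u hu))
        exact (mem_filter.1 (h5 ▸ mem_filter.2 ⟨hi, hci⟩ :
          i ∈ E.filter fun i => c i = u i)).2.symm.trans hci
      refine hcon ⟨c, hc, h2, h4 z hz fun j hj he => by_contra fun hne => ?_,
        h4 z' hz' fun j hj he => by_contra fun hne => ?_⟩
      · have := h3 j hj hne
        simp [N, ← he, hne] at this
      · have := h3 j hj hne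
        simp [N, ← he, hne] at this
    · rw [prod_wt c x I E (mem_powersetCard.1 hI).1]
      congr 1
      refine sum_congr rfl fun j _ => ?_
      simp only [N, wt]
      push_cast
      ring
  obtain ⟨c0, hc0, h0, -⟩ := good x hx x hx
  refine ⟨_, filter_subset _ _, h0, fun z hz i hi => ?_⟩
  obtain ⟨c, -, h1, h2, h3⟩ := good z hz c0 hc0
  have h4 : (E.filter fun i => c i = x i) = E.filter fun i => c0 i = x i :=
    eq_of_subset_of_card_le (fun j hj => mem_filter.2 ⟨(mem_filter.1 hj).1,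
      h3 j (mem_filter.1 hj).1 (mem_filter.1 hj).2⟩) (by omega)
  rw [← h4] at hi
  exact h2 i (mem_filter.1 hi).1 (mem_filter.1 hi).2

end Pool.Agent.MP_92191b_al
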