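import Pool.Agent.MP_92191b_al.Pair

/-! Endomorphisms of the graph joining words at distance more than `j + 1` are uniform. -/

set_option linter.unusedSectionVars false

namespace Pool.Agent.MP_92191b_al

open Finset

variable {ι α : Type} [Fintype ι] [DecidableEq ι] [Fintype α] [DecidableEq α]

/-- `T` is a subcube of dimension `d`. -/
def IsCube (T : Finset (ι → α)) (d : ℕ) : Prop :=
  ∃ A : Finset ι, A.card = d ∧ T.Nonempty ∧ ∀ x ∈ T, T = cube x A

theorem IsCube.card {T : Finset (ι → α)} {d : ℕ} (h : IsCube T d) :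
    T.card = Fintype.card α ^ d := by
  obtain ⟨A, hA, ⟨x, hx⟩, h⟩ := h
  rw [h x hx, card_cube, hA]

/-- The preimage of a subcube. -/
def pre (f : (ι → α) → ι → α) (z : ι → α) (J : Finset ι) : Finset (ι → α) :=
  univ.filter fun y => f y ∈ cube z J

theorem mem_pre {f : (ι → α) → ι → α} {z y : ι → α} {J : Finset ι} :
    y ∈ pre f z J ↔ ∀ i, i ∉ J → f y i = z i := by
  simp [pre, mem_cube]

theorem pre_slice (f : (ι → α) → ι → α) (z : ι → α) {E : Finset ι} {i : ι} (hi : i ∈ E) (c : α) :
    ((pre f z E).filter fun y => f y i = c) = pre f (Function.update z i c) (E.erase i) := by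
  ext y
  simp only [mem_filter, mem_pre, mem_erase, not_and]
  constructor
  · rintro ⟨h, hc⟩ l hl
    by_cases hli : l = i
    · rw [hli, Function.update_self, hc]
    · rw [Function.update_of_ne hli, h l (hl hli)]
  · intro h
    refine ⟨fun l hl => ?_, by rw [h i fun h' => absurd rfl h', Function.update_self]⟩
    rw [h l fun _ => hl, Function.update_of_ne fun h' => hl (by rw [h']; exact hi)]

variable [Nontrivial α]

theorem entries {X T : Finset (ι → α)} {g : (ι → α) → α} {j : ℕ} (hT : IsCube T (j + 1))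
    (hTX : T ⊆ X) (hg : ∀ c, IsCube (X.filter fun y => g y = c) (j + 1))
    (hno : ∀ c, ¬T ⊆ X.filter fun y => g y = c) (c : α) :
    (T.filter fun y => g y = c).card = Fintype.card α ^ j := by
  refine fiber_eq (t := univ) (fun _ _ => mem_univ _) (fun c _ => ?_)
    (by rw [hT.card, card_univ, pow_succ']) c (mem_univ _)
  rcases (T.filter fun y => g y = c).eq_empty_or_nonempty with he | ⟨w, hw⟩
  · simp [he]
  obtain ⟨hwT, hwc⟩ := mem_filter.1 hw
  obtain ⟨A, hA, -, h⟩ := hT
  obtain ⟨B, -, -, h'⟩ := hg c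
  have h1 := h w hwT
  have h2 := h' w (mem_filter.2 ⟨hTX hwT, hwc⟩)
  have h3 : (T.filter fun y => g y = c) ⊆ cube w (A ∩ B) := by
    intro y hy
    rw [← cube_inter, ← h1, ← h2]
    exact mem_inter.2 ⟨(mem_filter.1 hy).1, mem_filter.2 ⟨hTX (mem_filter.1 hy).1,
      (mem_filter.1 hy).2⟩⟩
  refine (card_le_card h3).trans (card_cube_le w (Nat.lt_succ_iff.1 ?_))
  refine lt_of_lt_of_eq (card_lt_card ((ssubset_iff_of_subset inter_subset_left).2 ?_)) hA
  by_contra! h4
  refine hno c ?_
  rw [h2, h1]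
  exact cube_mono fun i hi => (mem_inter.1 (h4 i hi)).2

theorem entries_of_untied {X : Finset (ι → α)} {g g' : (ι → α) → α} {j : ℕ}
    (hg : ∀ c, IsCube (X.filter fun y => g y = c) (j + 1))
    (hg' : ∀ c, IsCube (X.filter fun y => g' y = c) (j + 1)) {y0 y1 : ι → α} (h0 : y0 ∈ X)
    (h1 : y1 ∈ X) (h : g y1 = g y0) (h' : g' y0 ≠ g' y1) (c c' : α) :
    ((X.filter fun y => g' y = c').filter fun y => g y = c).card = Fintype.card α ^ j := by
  have hk : 1 < Fintype.card α := one_lt_k
  have hrow := entries (hg (g y0)) (filter_subset _ _) hg' fun c hc =>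
    h' ((mem_filter.1 (hc (mem_filter.2 ⟨h0, rfl⟩))).2.trans
      (mem_filter.1 (hc (mem_filter.2 ⟨h1, h⟩))).2.symm)
  refine entries (hg' c') (filter_subset _ _) hg (fun c hc => ?_) c
  obtain ⟨w, hw⟩ : ((X.filter fun y => g y = g y0).filter fun y => g' y = c').Nonempty :=
    card_pos.1 (by rw [hrow]; positivity)
  obtain ⟨hw1, hw2⟩ := mem_filter.1 hw
  obtain ⟨hwX, hw1⟩ := mem_filter.1 hw1
  have h2 : c = g y0 := (mem_filter.1 (hc (mem_filter.2 ⟨hwX, hw2⟩))).2.symm.trans hw1
  have h3 : (X.filter fun y => g' y = c') ⊆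
      (X.filter fun y => g y = g y0).filter fun y => g' y = c' := fun y hy =>
    mem_filter.2 ⟨h2 ▸ hc hy, (mem_filter.1 hy).2⟩
  have h4 := card_le_card h3
  rw [hrow, (hg' c').card] at h4
  exact absurd ((Nat.pow_le_pow_iff_right hk).1 h4) (by omega)

/-- Disjoint hyperplanes of a subcube are parallel. -/
theorem parallel {x y y' : ι → α} {A A' D : Finset ι} (hA : A.card + 1 = D.card)
    (hA' : A'.card + 1 = D.card) (h : cube y A ⊆ cube x D) (h' : cube y' A' ⊆ cube x D)
    (hd : ∀ w ∈ cube y A, w ∉ cube y' A') : A = A' := by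
  by_contra hne
  have h1 : A ∪ A' = D := by
    refine eq_of_subset_of_card_le
      (union_subset (subset_of_cube_subset h) (subset_of_cube_subset h')) ?_
    have : A.card < (A ∪ A').card := by
      refine card_lt_card ((ssubset_iff_of_subset subset_union_left).2 ?_)
      by_contra! h2
      exact hne (eq_of_subset_of_card_le (fun i hi => h2 i (mem_union_right _ hi))
        (by omega)).symm
    omega
  refine hd (fun i => if i ∈ A then y' i else y i) (mem_cube.2 fun i hi => if_neg hi)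
    (mem_cube.2 fun i hi => ?_)
  by_cases hiA : i ∈ A
  · exact if_pos hiA
  · have hiD : i ∉ D := by rw [← h1, mem_union]; tauto
    exact (if_neg hiA).trans ((mem_cube.1 (h (self_mem_cube y A)) i hiD).trans
      (mem_cube.1 (h' (self_mem_cube y' A')) i hiD).symm)

/-- Two transversal partitions into subcubes consist of parallel subcubes. -/
theorem dirs_eq {X : Finset (ι → α)} {g g' : (ι → α) → α} {j : ℕ} {A B : α → Finset ι}
    (hA : ∀ c, (A c).card = j + 1) (hB : ∀ c, (B c).card = j + 1)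
    (hg : ∀ x ∈ X, ∀ y, y ∈ cube x (A (g x)) ↔ y ∈ X ∧ g y = g x)
    (hg' : ∀ x ∈ X, ∀ y, y ∈ cube x (B (g' x)) ↔ y ∈ X ∧ g' y = g' x)
    (he : ∀ c c', ((X.filter fun y => g' y = c').filter fun y => g y = c).card =
      Fintype.card α ^ j) (c d : α) : A c = A d := by
  have hk : 1 < Fintype.card α := one_lt_k
  have h1 : ∀ c c', ∃ w ∈ X, g w = c ∧ g' w = c' := by
    intro c c'
    obtain ⟨w, hw⟩ : ((X.filter fun y => g' y = c').filter fun y => g y = c).Nonempty :=
      card_pos.1 (by rw [he]; positivity)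
    exact ⟨w, (mem_filter.1 (mem_filter.1 hw).1).1, (mem_filter.1 hw).2,
      (mem_filter.1 (mem_filter.1 hw).1).2⟩
  choose w hw hw1 hw2 using h1
  have hrow : ∀ c c' y, y ∈ cube (w c c') (A c) ↔ y ∈ X ∧ g y = c := fun c c' y => by
    simpa only [hw1] using hg _ (hw c c') y
  have hcol : ∀ c c' y, y ∈ cube (w c c') (B c') ↔ y ∈ X ∧ g' y = c' := fun c c' y => by
    simpa only [hw2] using hg' _ (hw c c') y
  have hcard : ∀ c c', (A c ∩ B c').card = j := by
    intro c c'
    refine Nat.pow_right_injective hk ?_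
    simp only
    rw [← he c c', ← card_cube (w c c'), ← cube_inter]
    congr 1
    ext y
    simp only [mem_inter, mem_filter, hrow, hcol]
    tauto
  have hp1 : ∀ c c' d', A c ∩ B c' = A c ∩ B d' := by
    intro c c' d'
    by_cases h : c' = d'
    · rw [h]
    refine parallel (x := w c c') (y := w c c') (y' := w c d') (D := A c) (by rw [hcard, hA])
      (by rw [hcard, hA]) (cube_mono inter_subset_left) ((cube_mono inter_subset_left).trans
        fun y hy => (hrow _ _ y).2 ((hrow _ _ y).1 hy)) fun y hy hy' => h ?_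
    exact ((hcol _ _ y).1 (cube_mono inter_subset_right hy)).2.symm.trans
      ((hcol _ _ y).1 (cube_mono inter_subset_right hy')).2
  have hp2 : ∀ c d c', A c ∩ B c' = A d ∩ B c' := by
    intro c d c'
    by_cases h : c = d
    · rw [h]
    refine parallel (x := w c c') (y := w c c') (y' := w d c') (D := B c') (by rw [hcard, hB])
      (by rw [hcard, hB]) (cube_mono inter_subset_right) ((cube_mono inter_subset_right).trans
        fun y hy => (hcol _ _ y).2 ((hcol _ _ y).1 hy)) fun y hy hy' => h ?_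
    exact ((hrow _ _ y).1 (cube_mono inter_subset_left hy)).2.symm.trans
      ((hrow _ _ y).1 (cube_mono inter_subset_left hy')).2
  obtain ⟨c', d', hne⟩ := exists_pair_ne α
  refine eq_of_subset_of_card_le (fun a ha => ?_) (by rw [hA, hA])
  by_cases haB : a ∈ B c'
  · exact (mem_inter.1 (hp2 c d c' ▸ mem_inter.2 ⟨ha, haB⟩ : a ∈ A d ∩ B c')).1
  have haB' : a ∉ B d' := fun h =>
    haB (mem_inter.1 (hp1 c d' c' ▸ mem_inter.2 ⟨ha, h⟩ : a ∈ A c ∩ B c')).2
  by_contra haA
  have h2 : insert a (A c ∩ B c') = A c := eq_of_subset_of_card_le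
    (insert_subset ha inter_subset_left)
    (by rw [card_insert_of_notMem fun h => haB (mem_inter.1 h).2, hcard, hA])
  have h3 := mem_cube.1 ((hcol c c' (w d c')).2 ⟨hw _ _, hw2 _ _⟩) a haB
  have h4 := mem_cube.1 ((hcol c d' (w d d')).2 ⟨hw _ _, hw2 _ _⟩) a haB'
  have h5 := mem_cube.1 ((hrow d c' (w d d')).2 ⟨hw _ _, hw1 _ _⟩) a haA
  have h6 : w c d' ∈ cube (w c c') (B c') := by
    refine mem_cube.2 fun i hi => ?_
    by_cases hia : i = a
    · rw [hia, ← h4, h5, h3]
    · refine mem_cube.1 ((hrow c c' (w c d')).2 ⟨hw _ _, hw1 _ _⟩) i ?_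
      rw [← h2, mem_insert, mem_inter]
      tauto
  exact hne (((hcol _ _ _).1 h6).2.symm.trans (hw2 _ _))

variable {f : (ι → α) → ι → α} {j : ℕ}

theorem pre_isCube (hk : Ekr ι α j)
    (hf : ∀ x y, j + 1 < hammingDist x y → j + 1 < hammingDist (f x) (f y))
    {J : Finset ι} (hJ : J.card = j + 1) (z : ι → α) : IsCube (pre f z J) (j + 1) := by
  have hd : ∀ z, ∀ x ∈ pre f z J, ∀ y ∈ pre f z J, hammingDist x y ≤ j + 1 := by
    intro z x hx y hy
    by_contra h
    have := dist_le_of_mem_cube (mem_filter.1 hx).2 (mem_filter.1 hy).2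
    have := hf x y (by omega)
    omega
  have hfib : ∀ c ∈ cube z Jᶜ,
      (univ.filter fun y => (fun i => if i ∈ J then z i else f y i) = c) = pre f c J := by
    intro c hc
    ext y
    simp only [mem_filter, mem_univ, true_and, mem_pre]
    constructor
    · rintro rfl i hi
      exact (if_neg hi).symm
    · intro h
      funext i
      by_cases hi : i ∈ J
      · rw [if_pos hi, mem_cube.1 hc i (by simpa using hi)]
      · rw [if_neg hi, h i hi]
  have h1 := fiber_eq (s := univ) (t := cube z Jᶜ) (N := Fintype.card α ^ (j + 1))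
    (g := fun y i => if i ∈ J then z i else f y i)
    (fun y _ => mem_cube.2 fun i hi => if_pos (by simpa using hi))
    (fun c hc => by rw [hfib c hc]; exact hk.le (hd c))
    (by rw [card_cube, ← hJ, ← pow_add, add_comm, card_add_card_compl, card_univ,
      Fintype.card_fun]) z (self_mem_cube _ _)
  rw [hfib z (self_mem_cube _ _)] at h1
  obtain ⟨A, hA, h⟩ := hk _ (hd z) h1.ge
  exact ⟨A, hA, card_pos.1 (by rw [h1]; exact pow_pos (lt_trans zero_lt_one one_lt_k) _), h⟩

theorem uniform_on_pre (hk : Ekr ι α j)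
    (hf : ∀ x y, j + 1 < hammingDist x y → j + 1 < hammingDist (f x) (f y))
    {E : Finset ι} (hE : E.card = j + 1 + 1) (z : ι → α) {a b : ι → α} (ha : a ∈ pre f z E)
    (hb : b ∈ pre f z E) :
    (univ.filter fun x => f x = f a).card = (univ.filter fun x => f x = f b).card := by
  have hsl : ∀ i ∈ E, ∀ c, IsCube ((pre f z E).filter fun y => f y i = c) (j + 1) := by
    intro i hi c
    rw [pre_slice f z hi]
    exact pre_isCube hk hf (by rw [card_erase_of_mem hi, hE]; rfl) _
  obtain ⟨i0, hi0⟩ : E.Nonempty := card_pos.1 (by omega)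
  have hfib : ∀ y ∈ pre f z E, ∀ x, f x = f y ↔ x ∈ pre f z E ∧ ∀ i ∈ E, f x i = f y i := by
    intro y hy x
    constructor
    · intro h
      exact ⟨mem_pre.2 fun i hi => h ▸ mem_pre.1 hy i hi, fun i _ => by rw [h]⟩
    · rintro ⟨hx, h⟩
      funext i
      by_cases hi : i ∈ E
      · exact h i hi
      · rw [mem_pre.1 hx i hi, mem_pre.1 hy i hi]
  by_cases htied : ∀ i ∈ E, ∀ y0 ∈ pre f z E, ∀ y1 ∈ pre f z E, f y1 i0 = f y0 i0 → f y0 i = f y1 i
  · have key : ∀ y ∈ pre f z E,
        (univ.filter fun x => f x = f y).card = Fintype.card α ^ (j + 1) := by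
      intro y hy
      rw [← (hsl i0 hi0 (f y i0)).card]
      congr 1
      ext x
      simp only [mem_filter, mem_univ, true_and, hfib y hy]
      exact and_congr_right fun hx =>
        ⟨fun h => h i0 hi0, fun h i hi => (htied i hi y hy x hx h).symm⟩
    rw [key a ha, key b hb]
  push Not at htied
  obtain ⟨i1, hi1, y0, h0, y1, h1, h, h'⟩ := htied
  have hent := entries_of_untied (hsl i0 hi0) (hsl i1 hi1) h0 h1 h h'
  have hunt : ∀ i ∈ E, ∃ i' ∈ E, ∃ u ∈ pre f z E, ∃ v ∈ pre f z E,
      f v i = f u i ∧ f u i' ≠ f v i' := by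
    intro i hi
    by_contra! hcon
    have h2 : ((pre f z E).filter fun y => f y i = f a i) ⊆
        ((pre f z E).filter fun y => f y i1 = f a i1).filter fun y => f y i0 = f a i0 :=
      fun y hy => mem_filter.2 ⟨mem_filter.2 ⟨(mem_filter.1 hy).1,
        (hcon i1 hi1 a ha y (mem_filter.1 hy).1 (mem_filter.1 hy).2).symm⟩,
        (hcon i0 hi0 a ha y (mem_filter.1 hy).1 (mem_filter.1 hy).2).symm⟩
    have h3 := card_le_card h2
    rw [hent, (hsl i hi _).card] at h3
    exact absurd ((Nat.pow_le_pow_iff_right one_lt_k).1 h3) (by omega)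
  have hsl' := hsl
  choose! A hA hA0 hA' using hsl
  have hpar : ∀ i ∈ E, ∀ c, A i c = A i (f a i) := by
    intro i hi c
    obtain ⟨i', hi', u, hu, v, hv, h2, h3⟩ := hunt i hi
    have h4 : ∀ i ∈ E, ∀ x ∈ pre f z E, ∀ y,
        y ∈ cube x (A i (f x i)) ↔ y ∈ pre f z E ∧ f y i = f x i := fun i hi x hx y => by
      rw [← hA' i hi _ x (mem_filter.2 ⟨hx, rfl⟩), mem_filter]
    exact dirs_eq (hA i hi) (hA i' hi') (h4 i hi) (h4 i' hi')
      (entries_of_untied (hsl' i hi) (hsl' i' hi') hu hv h2 h3) _ _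
  have key : ∀ y ∈ pre f z E, (univ.filter fun x => f x = f y) =
      cube y (univ.filter fun l => ∀ i ∈ E, l ∈ A i (f a i)) := by
    intro y hy
    have h2 : ∀ i ∈ E, ∀ x, x ∈ pre f z E ∧ f x i = f y i ↔ x ∈ cube y (A i (f a i)) := by
      intro i hi x
      rw [← hpar i hi (f y i), ← hA' i hi _ y (mem_filter.2 ⟨hy, rfl⟩), mem_filter]
    ext x
    simp only [mem_filter, mem_univ, true_and, hfib y hy, mem_cube, not_forall]
    constructor
    · rintro ⟨hx, h⟩ l ⟨i, hi, hl⟩
      exact mem_cube.1 ((h2 i hi x).1 ⟨hx, h i hi⟩) l hl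
    · intro h
      have h3 : ∀ i ∈ E, x ∈ pre f z E ∧ f x i = f y i := fun i hi =>
        (h2 i hi x).2 (mem_cube.2 fun l hl => h l ⟨i, hi, hl⟩)
      exact ⟨(h3 i0 hi0).1, fun i hi => (h3 i hi).2⟩
  rw [key a ha, key b hb, card_cube, card_cube]

theorem uniform_of_large (hk : Ekr ι α j)
    (hj : j + 1 + 1 ≤ Fintype.card ι)
    (hf : ∀ x y, j + 1 < hammingDist x y → j + 1 < hammingDist (f x) (f y)) (a b : ι → α) :
    (univ.filter fun x => f x = f a).card = (univ.filter fun x => f x = f b).card := by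
  induction hd : hammingDist (f a) (f b) using Nat.strong_induction_on generalizing a with
  | _ d ih =>
  by_cases h : d ≤ j + 1 + 1
  · obtain ⟨E, hE, -, hE'⟩ := exists_subsuperset_card_eq
      (subset_univ (univ.filter fun i => f a i ≠ f b i)) (n := j + 1 + 1) (hd.le.trans h) hj
    refine uniform_on_pre hk hf hE' (f a) (mem_pre.2 fun _ _ => rfl) (mem_pre.2 fun i hi => ?_)
    by_contra h'
    exact hi (hE (mem_filter.2 ⟨mem_univ _, fun h'' => h' h''.symm⟩))
  · obtain ⟨E, hE, hE'⟩ := exists_subset_card_eq (s := univ.filter fun i => f a i ≠ f b i)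
      (n := j + 1 + 1) ((not_le.1 h).le.trans hd.ge)
    obtain ⟨i, hi⟩ : E.Nonempty := card_pos.1 (by omega)
    obtain ⟨-, -, ⟨w, hw⟩, -⟩ := pre_isCube hk hf
      (show (E.erase i).card = j + 1 by rw [card_erase_of_mem hi, hE']; rfl)
      (Function.update (f a) i (f b i))
    rw [← pre_slice f _ hi, mem_filter] at hw
    rw [uniform_on_pre hk hf hE' (f a) (mem_pre.2 fun _ _ => rfl) hw.1]
    refine ih _ ?_ w rfl
    rw [← hd]
    refine card_lt_card ((ssubset_iff_of_subset fun l hl => ?_).2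
      ⟨i, hE hi, fun h' => (mem_filter.1 h').2 hw.2⟩)
    by_cases hlE : l ∈ E
    · exact hE hlE
    · exact mem_filter.2 ⟨mem_univ _, mem_pre.1 hw.1 l hlE ▸ (mem_filter.1 hl).2⟩

end Pool.Agent.MP_92191b_al
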