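import Pool.Agent.MP_92191b_al.Cube

/-! Pairs of families with disjoint distance sets whose sizes multiply to the whole space have
disjoint Fourier levels. -/

set_option linter.unusedSectionVars false

namespace Pool.Agent.MP_92191b_al

open Finset

variable {ι α : Type} [Fintype ι] [DecidableEq ι] [Fintype α] [DecidableEq α]

/-- The mean-zero function `k * [a = b] - 1`. -/
def wt (a b : α) : ℚ := (Fintype.card α : ℚ) * (if a = b then 1 else 0) - 1

/-- The component of the indicator of `K` on the coordinates `I`, evaluated at `y`. -/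
def lev (K : Finset (ι → α)) (I : Finset ι) (y : ι → α) : ℚ := ∑ x ∈ K, ∏ i ∈ I, wt (x i) (y i)

theorem sum_perm_one (c x : α) : (Fintype.card α : ℚ) *
    ∑ σ : Equiv.Perm α, (if σ c = x then 1 else 0 : ℚ) = Fintype.card (Equiv.Perm α) := by
  have h : ∀ x', ∑ σ : Equiv.Perm α, (if σ c = x then 1 else 0 : ℚ) =
      ∑ σ : Equiv.Perm α, (if σ c = x' then 1 else 0 : ℚ) := fun x' =>
    Fintype.sum_equiv (Equiv.mulLeft (Equiv.swap x x')) _ _ fun σ => by
      simp [Equiv.swap_apply_eq_iff]
  rw [← nsmul_eq_mul, ← card_univ, ← sum_const, sum_congr rfl fun x' _ => h x', sum_comm]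
  simp

theorem sum_perm_two {c x b a : α} (hcb : c ≠ b) (hxa : a ≠ x) : ((Fintype.card α : ℚ) - 1) *
    ∑ σ : Equiv.Perm α, (if σ c = x then 1 else 0 : ℚ) * (if σ b = a then 1 else 0) =
      ∑ σ : Equiv.Perm α, (if σ c = x then 1 else 0 : ℚ) := by
  have h : ∀ a' ∈ univ.erase x,
      ∑ σ : Equiv.Perm α, (if σ c = x then 1 else 0 : ℚ) * (if σ b = a then 1 else 0) =
      ∑ σ : Equiv.Perm α, (if σ c = x then 1 else 0 : ℚ) * (if σ b = a' then 1 else 0) :=
    fun a' ha' => Fintype.sum_equiv (Equiv.mulLeft (Equiv.swap a a')) _ _ fun σ => by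
      simp [Equiv.swap_apply_eq_iff,
        Equiv.swap_apply_of_ne_of_ne hxa.symm (ne_of_mem_erase ha').symm]
  have h1 : ((Fintype.card α : ℚ) - 1) = (univ.erase x).card := by
    rw [cast_card_erase_of_mem (mem_univ _), card_univ]
  rw [h1, ← nsmul_eq_mul, ← sum_const, sum_congr rfl h, sum_comm]
  refine sum_congr rfl fun σ _ => ?_
  by_cases hc : σ c = x
  · have : σ b ≠ x := fun h' => hcb (σ.injective (hc.trans h'.symm))
    simp [hc, this]
  · simp [hc]

variable [Nontrivial α]

theorem k_pos : (0 : ℚ) < Fintype.card α := by exact_mod_cast lt_trans zero_lt_one one_lt_k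

theorem k_sub_pos : (0 : ℚ) < (Fintype.card α : ℚ) - 1 := by
  have : (1 : ℚ) < Fintype.card α := by exact_mod_cast one_lt_k
  linarith

theorem sum_perm_one' (c x : α) : ∑ σ : Equiv.Perm α, (if σ c = x then 1 else 0 : ℚ) =
    Fintype.card (Equiv.Perm α) / Fintype.card α := by
  rw [← sum_perm_one c x, mul_div_cancel_left₀ _ k_pos.ne']

theorem sum_perm_wt (c x b a : α) :
    ∑ σ : Equiv.Perm α, wt (σ b) a * (if σ c = x then 1 else 0 : ℚ) =
      Fintype.card (Equiv.Perm α) / Fintype.card α / ((Fintype.card α : ℚ) - 1) *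
        (wt x a * wt c b) := by
  have h1 := sum_perm_one' c x
  have h0 := k_sub_pos (α := α)
  have h2 : ∑ σ : Equiv.Perm α, wt (σ b) a * (if σ c = x then 1 else 0 : ℚ) = Fintype.card α *
      ∑ σ : Equiv.Perm α, (if σ c = x then 1 else 0 : ℚ) * (if σ b = a then 1 else 0) -
      ∑ σ : Equiv.Perm α, (if σ c = x then 1 else 0 : ℚ) := by
    rw [mul_sum, ← sum_sub_distrib]
    exact sum_congr rfl fun σ _ => by rw [wt]; ring
  rw [h2, ← h1]
  by_cases hcb : c = b <;> by_cases hxa : x = a
  · subst hcb hxa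
    rw [sum_congr rfl fun σ _ => show (if σ c = x then 1 else 0 : ℚ) * (if σ c = x then 1 else 0) =
      if σ c = x then 1 else 0 by split_ifs <;> simp]
    simp only [wt, if_true]
    field_simp
  · subst hcb
    rw [sum_eq_zero (f := fun σ : Equiv.Perm α => (if σ c = x then 1 else 0 : ℚ) *
      (if σ c = a then 1 else 0)) fun σ _ => by
        by_cases h : σ c = x
        · simp [h, hxa]
        · simp [h]]
    simp only [wt, if_true, if_neg hxa]
    field_simp
    ring
  · subst hxa
    rw [sum_eq_zero (f := fun σ : Equiv.Perm α => (if σ c = x then 1 else 0 : ℚ) *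
      (if σ b = x then 1 else 0)) fun σ _ => by
        by_cases h : σ c = x
        · have : σ b ≠ x := fun h' => hcb (σ.injective (h.trans h'.symm))
          simp [this]
        · simp [h]]
    simp only [wt, if_true, if_neg hcb]
    field_simp
    ring
  · rw [← sum_perm_two hcb (Ne.symm hxa)]
    simp only [wt, if_neg hcb, if_neg hxa]
    field_simp
    ring

/-- Two families inside subcubes of the same dimension, with no common nonzero distance, whose
sizes multiply to at least the size of the subcube. -/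
structure Pair (K C : Finset (ι → α)) (D E : Finset ι) : Prop where
  card : D.card = E.card
  subK : ∀ x ∈ K, K ⊆ cube x D
  subC : ∀ x ∈ C, C ⊆ cube x E
  dist : ∀ x ∈ K, ∀ x' ∈ K, ∀ c ∈ C, ∀ c' ∈ C, x ≠ x' → hammingDist x x' ≠ hammingDist c c'
  big : Fintype.card α ^ D.card ≤ K.card * C.card

theorem Pair.symm {K C : Finset (ι → α)} {D E : Finset ι} (h : Pair K C D E) : Pair C K E D :=
  ⟨h.card.symm, h.subC, h.subK, fun c hc c' hc' x hx x' hx' hne he => by
    by_cases hxx : x = x'
    · rw [hxx, hammingDist_self] at he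
      exact hne (hammingDist_eq_zero.1 he)
    · exact h.dist x hx x' hx' c hc c' hc' hxx he.symm, by rw [← h.card, mul_comm]; exact h.big⟩

theorem Pair.lev_same {K C : Finset (ι → α)} {D I : Finset ι} (h : Pair K C D D) (hI : I ⊆ D)
    (hne : I.Nonempty) (a b : ι → α) : lev K I a * lev C I b = 0 := by
  let n : (ι → Equiv.Perm α) → ℚ := fun σ => ∑ x ∈ K, ∑ c ∈ C,
    ∏ i, if i ∈ D then (if σ i (c i) = x i then 1 else 0) else 1
  have hform : ∀ φ : ι → Equiv.Perm α → ℚ, ∑ σ, (∏ i, φ i (σ i)) * n σ = ∑ x ∈ K, ∑ c ∈ C,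
      ∏ i, ∑ s, φ i s * if i ∈ D then (if s (c i) = x i then 1 else 0) else 1 := by
    intro φ
    simp only [n, mul_sum, ← prod_mul_distrib]
    rw [sum_comm]
    refine sum_congr rfl fun x _ => ?_
    rw [sum_comm]
    refine sum_congr rfl fun c _ => ?_
    rw [prod_univ_sum, Fintype.piFinset_univ]
  have hle : ∀ σ, n σ ≤ 1 := by
    intro σ
    have h1 : n σ = ((K ×ˢ C).filter fun p => ∀ i ∈ D, σ i (p.2 i) = p.1 i).card := by
      rw [card_filter, Nat.cast_sum, sum_product]
      refine sum_congr rfl fun x _ => sum_congr rfl fun c _ => ?_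
      rw [prod_ite_mem, univ_inter, prod_boole]
      split_ifs <;> simp
    rw [h1, Nat.cast_le_one, card_le_one]
    rintro ⟨x, c⟩ hp ⟨x', c'⟩ hp'
    obtain ⟨hp, he⟩ := mem_filter.1 hp
    obtain ⟨hp', he'⟩ := mem_filter.1 hp'
    obtain ⟨hx, hc⟩ := mem_product.1 hp
    obtain ⟨hx', hc'⟩ := mem_product.1 hp'
    have hiff : ∀ i, x i ≠ x' i ↔ c i ≠ c' i := by
      intro i
      by_cases hi : i ∈ D
      · have h2 := he i hi
        have h3 := he' i hi
        simp only at h2 h3
        rw [← h2, ← h3, (σ i).injective.ne_iff]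
      · have h2 : x' i = x i := mem_cube.1 (h.subK x hx hx') i hi
        have h3 : c' i = c i := mem_cube.1 (h.subC c hc hc') i hi
        simp [h2, h3]
    have hd : hammingDist x x' = hammingDist c c' := by
      simp only [hammingDist, hiff]
    have hxx : x = x' := by_contra fun h' => h.dist x hx x' hx' c hc c' hc' h' hd
    rw [hxx, hammingDist_self] at hd
    rw [hxx, hammingDist_eq_zero.1 hd.symm]
  set P : ℚ := (Fintype.card (Equiv.Perm α) : ℚ) with hP
  set k : ℚ := (Fintype.card α : ℚ) with hk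
  have hPpos : 0 < P := by rw [hP]; exact_mod_cast Fintype.card_pos
  have hk0 : 0 < k := k_pos
  have hbase : ∀ (x c : ι → α) i, ∑ s : Equiv.Perm α,
      (if i ∈ D then (if s (c i) = x i then 1 else 0) else 1 : ℚ) = P * if i ∈ D then k⁻¹ else 1 := by
    intro x c i
    split_ifs
    · rw [sum_perm_one', div_eq_mul_inv]
    · simp [hP]
  have hone : ∀ σ, n σ = 1 := by
    have h1 := hform fun _ _ => 1
    simp only [one_mul, prod_const_one, hbase, prod_mul_distrib, prod_const, prod_ite_mem,
      univ_inter, sum_const, nsmul_eq_mul, card_univ] at h1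
    have h2 : ∑ σ : ι → Equiv.Perm α, (1 : ℚ) ≤ ∑ σ, n σ := by
      rw [h1, sum_const, card_univ, Fintype.card_fun, nsmul_eq_mul, mul_one, Nat.cast_pow, ← hP,
        inv_pow]
      have h3 : k ^ D.card ≤ K.card * C.card := by rw [hk]; exact_mod_cast h.big
      calc P ^ Fintype.card ι = k ^ D.card * (P ^ Fintype.card ι * (k ^ D.card)⁻¹) := by field_simp
        _ ≤ K.card * C.card * (P ^ Fintype.card ι * (k ^ D.card)⁻¹) := by gcongr
        _ = _ := by ring
    intro σ
    exact (sum_eq_sum_iff_of_le fun σ _ => hle σ).1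
      (le_antisymm (sum_le_sum fun σ _ => hle σ) h2) σ (mem_univ _)
  have h1 := hform fun i s => if i ∈ I then wt (s (b i)) (a i) else 1
  have h2 : ∑ σ : ι → Equiv.Perm α,
      (∏ i, if i ∈ I then wt (σ i (b i)) (a i) else 1) * n σ = 0 := by
    simp only [hone, mul_one]
    rw [← Fintype.piFinset_univ, ← prod_univ_sum
      (f := fun i (s : Equiv.Perm α) => if i ∈ I then wt (s (b i)) (a i) else 1)]
    obtain ⟨i, hi⟩ := hne
    refine prod_eq_zero (mem_univ i) ?_
    simp only [if_pos hi, wt, sum_sub_distrib, ← mul_sum, sum_perm_one]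
    simp
  have h3 : ∀ x c : ι → α, ∏ i, ∑ s : Equiv.Perm α, (if i ∈ I then wt (s (b i)) (a i) else 1) *
      (if i ∈ D then (if s (c i) = x i then 1 else 0) else 1) =
      (∏ i, if i ∈ I then P / k / (k - 1) else P * if i ∈ D then k⁻¹ else 1) *
        ((∏ i ∈ I, wt (x i) (a i)) * ∏ i ∈ I, wt (c i) (b i)) := by
    intro x c
    rw [← prod_mul_distrib, ← univ_inter I, ← prod_ite_mem, ← prod_mul_distrib]
    simp only [univ_inter]
    refine prod_congr rfl fun i _ => ?_
    by_cases hi : i ∈ I
    · simp only [if_pos hi, if_pos (hI hi), sum_perm_wt, hP, hk]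
    · simp only [if_neg hi, one_mul, mul_one, hbase]
  rw [h2] at h1
  simp only [h3, ← mul_sum, ← sum_mul] at h1
  refine (mul_eq_zero.1 h1.symm).resolve_left (prod_ne_zero_iff.2 fun i _ => ?_)
  have := k_sub_pos (α := α)
  split_ifs <;> positivity

theorem Pair.lev_mul {K C : Finset (ι → α)} {D E I J : Finset ι} (h : Pair K C D E) (hI : I ⊆ D)
    (hJ : J ⊆ E) (hIJ : I.card = J.card) (hne : I.Nonempty) (a b : ι → α) :
    lev K I a * lev C J b = 0 := by
  obtain ⟨π, hπI, hπD⟩ : ∃ π : Equiv.Perm ι, (∀ i, π i ∈ J ↔ i ∈ I) ∧ ∀ i, π i ∈ E ↔ i ∈ D := by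
    have hc : ∀ p : Bool × Bool,
        Fintype.card {i // (decide (i ∈ I), decide (i ∈ D)) = p} =
          Fintype.card {i // (decide (i ∈ J), decide (i ∈ E)) = p} := by
      have h1 : ∀ {I D : Finset ι}, I ⊆ D → ∀ p : Bool × Bool,
          Fintype.card {i // (decide (i ∈ I), decide (i ∈ D)) = p} =
            if p.1 then (if p.2 then I.card else 0) else
              if p.2 then D.card - I.card else Fintype.card ι - D.card := by
        rintro I D hI ⟨p, q⟩
        rw [Fintype.card_subtype, ← card_sdiff_of_subset hI, ← card_compl, ← card_empty (α := ι)]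
        cases p <;> cases q <;> simp only [Bool.false_eq_true, if_true, if_false] <;> congr 1 <;>
          ext i <;> have := @hI i <;> simp <;> tauto
      intro p
      rw [h1 hI, h1 hJ, hIJ, h.card]
    let e := fun p => Fintype.equivOfCardEq (hc p)
    have := fun i => Prod.ext_iff.1 (Equiv.ofFiberEquiv_map e i)
    exact ⟨Equiv.ofFiberEquiv e, fun i => by simpa using (this i).1,
      fun i => by simpa using (this i).2⟩
  have hinj : Function.Injective fun c : ι → α => c ∘ π := π.surjective.injective_comp_right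
  have h1 : Pair K (C.image fun c => c ∘ π) D D := by
    refine ⟨rfl, h.subK, ?_, ?_, by rw [card_image_of_injective _ hinj]; exact h.big⟩
    · simp only [forall_mem_image, image_subset_iff]
      exact fun c hc c' hc' => mem_cube.2 fun i hi =>
        mem_cube.1 (h.subC c hc hc') _ fun h' => hi ((hπD i).1 h')
    · simp only [forall_mem_image]
      intro x hx x' hx' c hc c' hc' hne he
      refine h.dist x hx x' hx' c hc c' hc' hne (he.trans ?_)
      exact card_bij (fun i _ => π i) (by simp) (by simp) fun j hj =>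
        ⟨π.symm j, by simpa using hj, by simp⟩
  rw [← h1.lev_same hI hne a (b ∘ π), lev, lev, lev, sum_image fun _ _ _ _ h' => hinj h']
  congr 1
  exact sum_congr rfl fun c _ => (prod_bij (fun i _ => π i) (fun i hi => (hπI i).2 hi) (by simp)
    (fun j hj => ⟨π.symm j, (hπI _).1 (by simpa using hj), by simp⟩) fun _ _ => rfl).symm

end Pool.Agent.MP_92191b_al
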