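import Pool.Agent.MP_92191b_al.Small
import Pool.Agent.MP_92191b_al.Large

/-! Over a large alphabet the power action of the wreath product is almost synchronizing. -/

set_option linter.unusedSectionVars false

namespace Pool.Agent.MP_92191b_al

open Finset

variable {ι α : Type} [Fintype ι] [DecidableEq ι] [Fintype α] [DecidableEq α]

theorem exists_perm_pair {a b a' b' : α} (h : a ≠ b ↔ a' ≠ b') :
    ∃ σ : Equiv.Perm α, σ a = a' ∧ σ b = b' := by
  by_cases hab : a = b
  · have h' : a' = b' := by_contra fun h' => h.2 h' hab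
    exact ⟨Equiv.swap a a', by simp, by rw [← hab, ← h']; simp⟩
  · refine ⟨Equiv.swap (Equiv.swap a a' b) b' * Equiv.swap a a', ?_, by simp⟩
    rw [Equiv.Perm.mul_apply, Equiv.swap_apply_left]
    refine Equiv.swap_apply_of_ne_of_ne (fun h' => hab ?_) (h.1 hab)
    exact (Equiv.swap a a').injective (by rw [Equiv.swap_apply_left]; exact h')

/-- The wreath product is transitive on pairs of words at a given distance. -/
theorem exists_wreath {x y x' y' : ι → α} (h : hammingDist x' y' = hammingDist x y) :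
    ∃ (σ : ι → Equiv.Perm α) (π : Equiv.Perm ι),
      (fun i => σ i (x (π i))) = x' ∧ (fun i => σ i (y (π i))) = y' := by
  obtain ⟨π, hπ⟩ : ∃ π : Equiv.Perm ι, ∀ i, x (π i) ≠ y (π i) ↔ x' i ≠ y' i := by
    have e : {i // x' i ≠ y' i} ≃ {i // x i ≠ y i} := Fintype.equivOfCardEq (by
      rw [Fintype.card_subtype, Fintype.card_subtype]; exact h)
    exact ⟨e.extendSubtype, fun i => ⟨fun h' => by_contra fun h'' =>
      e.extendSubtype_not_mem i h'' h', e.extendSubtype_mem i⟩⟩
  choose σ hσ hσ' using fun i => exists_perm_pair (hπ i)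
  exact ⟨σ, π, funext hσ, funext hσ'⟩

theorem sync [Nontrivial α] (hm : 1 ≤ Fintype.card ι)
    (hk : (Fintype.card ι + 1) ^ 2 ≤ Fintype.card α)
    (M : Submonoid (Function.End (ι → α)))
    (hG : ∀ (σ : ι → Equiv.Perm α) (π : Equiv.Perm ι),
      (fun x i => σ i (x (π i)) : Function.End (ι → α)) ∈ M)
    {f : Function.End (ι → α)} (hf : f ∈ M) (hM : ∀ c ∈ M, ¬∃ y, ∀ x, c x = y) (a b : ι → α) :
    (univ.filter fun x => f x = f a).card = (univ.filter fun x => f x = f b).card := by
  classical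
  have hk' : 2 < Fintype.card α := by nlinarith
  let S : Set ℕ := {d | ∀ x y : ι → α, hammingDist x y = d → ∀ c ∈ M, c x ≠ c y}
  have hS : ∀ x y : ι → α, hammingDist x y ∈ S ↔ ∀ c ∈ M, c x ≠ c y := by
    refine fun x y => ⟨fun h => h x y rfl, fun h x' y' h' c hc hne => ?_⟩
    obtain ⟨σ, π, h1, h2⟩ := exists_wreath h'
    refine h _ (M.mul_mem hc (hG σ π)) ?_
    change c (fun i => σ i (x (π i))) = c fun i => σ i (y (π i))
    rw [h1, h2, hne]
  have hend : ∀ x y, hammingDist x y ∈ S → f x ≠ f y ∧ hammingDist (f x) (f y) ∈ S := fun x y h =>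
    ⟨(hS x y).1 h f hf, (hS _ _).2 fun c hc => (hS x y).1 h _ (M.mul_mem hc hf)⟩
  have hle : ∀ x y : ι → α, hammingDist x y ≤ Fintype.card ι := fun _ _ =>
    hammingDist_le_card_fintype
  have hge : ∀ x y : ι → α, x ≠ y → 1 ≤ hammingDist x y := fun _ _ h => hammingDist_pos.2 h
  have hex : ∃ n, ∃ c ∈ M, (univ.image c).card = n := ⟨_, 1, M.one_mem, rfl⟩
  obtain ⟨h, hh, hcard⟩ := Nat.find_spec hex
  have hK : ∀ y ∈ univ.image h, ∀ z ∈ univ.image h, y ≠ z → hammingDist y z ∈ S := by
    intro y hy z hz hyz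
    refine (hS y z).2 fun c hc he => ?_
    have h1 : (univ.image (c * h)).card < (univ.image h).card := by
      have : univ.image (c * h) = (univ.image h).image c := by
        rw [image_image]
        rfl
      rw [this]
      exact lt_of_le_of_ne card_image_le fun h' => hyz (card_image_iff.1 h' hy hz he)
    exact Nat.find_min hex (hcard ▸ h1) ⟨_, M.mul_mem hc hh, rfl⟩
  obtain ⟨w, -, hw⟩ := exists_max_image univ (fun w => (univ.filter fun x => h x = w).card)
    ⟨a, mem_univ _⟩
  have hC : ∀ y ∈ univ.filter fun x => h x = w, ∀ z ∈ univ.filter fun x => h x = w, y ≠ z →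
      hammingDist y z ∉ S := fun y hy z hz _ h' =>
    (hS y z).1 h' h hh ((mem_filter.1 hy).2.trans (mem_filter.1 hz).2.symm)
  have hKC : Fintype.card α ^ Fintype.card ι ≤
      (univ.image h).card * (univ.filter fun x => h x = w).card := by
    rw [← Fintype.card_fun, ← card_univ, mul_comm]
    exact card_le_mul_card_image _ _ fun v _ => hw v (mem_univ _)
  by_cases h1 : 1 ∈ S
  · obtain ⟨j, hj, hE, hj'⟩ := classify' h1 hk hK hC hKC hm
    refine uniform_of_small hk' hE hj (fun x y hxy hd => ?_) a b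
    obtain ⟨h2, h3⟩ := hend x y ((hj' _ (hge x y hxy) (hle x y)).2 hd)
    exact ⟨h2, (hj' _ (hge _ _ h2) (hle _ _)).1 h3⟩
  · obtain ⟨j, hj, hE, hj'⟩ := classify' (S := Sᶜ) h1 hk hC
      (fun y hy z hz hyz h' => h' (hK y hy z hz hyz)) (by rwa [mul_comm]) hm
    obtain ⟨x, hx⟩ : ∃ x, h x ≠ h a := by
      by_contra! h'
      exact hM h hh ⟨h a, h'⟩
    have h2 := hK _ (mem_image_of_mem h (mem_univ x)) _ (mem_image_of_mem h (mem_univ a)) hx
    have h3 := hle (h x) (h a)
    have h4 := mt (hj' _ (hge _ _ hx) h3).2 fun h' => h' h2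
    refine uniform_of_large hE (by omega) (fun x y hd => ?_) a b
    have h5 : hammingDist x y ∈ S := by_contra fun h' =>
      absurd ((hj' _ (by omega) (hle x y)).1 h') (by omega)
    obtain ⟨h6, h7⟩ := hend x y h5
    have h8 := mt (hj' _ (hge _ _ h6) (hle _ _)).2 fun h' => h' h7
    omega

end Pool.Agent.MP_92191b_al
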