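import Pool.Agent.MP_92191b_al.Key

/-! Over an alphabet of size at least `(m + 1) ^ 2`, one member of a perfect pair is a subcube. -/

set_option linter.unusedSectionVars false

namespace Pool.Agent.MP_92191b_al

open Finset

variable {ι α : Type} [Fintype ι] [DecidableEq ι] [Fintype α] [DecidableEq α] [Nontrivial α]

theorem eq_cube_of_card {K : Finset (ι → α)} {x : ι → α} {D : Finset ι} (h : K ⊆ cube x D)
    (hc : Fintype.card α ^ D.card ≤ K.card) : K = cube x D :=
  eq_of_subset_of_card_le h (by rw [card_cube]; exact hc)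

theorem Pair.nonempty {K C : Finset (ι → α)} {D E : Finset ι} (h : Pair K C D E) : K.Nonempty := by
  have h1 := h.big
  have h2 : 0 < Fintype.card α ^ D.card := pow_pos (lt_trans zero_lt_one one_lt_k) _
  exact card_pos.1 (Nat.pos_of_mul_pos_right (lt_of_lt_of_le h2 h1))

theorem exists_dist (x : ι → α) {A : Finset ι} {s : ℕ} (hs : s ≤ A.card) :
    ∃ y ∈ cube x A, hammingDist x y = s := by
  obtain ⟨I, hI, rfl⟩ := exists_subset_card_eq hs
  choose u hu using fun i => exists_ne (x i)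
  refine ⟨fun i => if i ∈ I then u i else x i,
    mem_cube.2 fun i hi => if_neg fun h => hi (hI h), ?_⟩
  rw [hammingDist]
  congr 1
  ext i
  by_cases hi : i ∈ I <;> simp [hi, (hu i).symm]

theorem Pair.cube_or (n : ℕ) (hk : (n + 1) ^ 2 ≤ Fintype.card α) :
    ∀ {K C : Finset (ι → α)} {D E : Finset ι}, Pair K C D E → D.card = n →
      (∃ x A, K = cube x A) ∨ ∃ x A, C = cube x A := by
  classical
  induction n using Nat.strong_induction_on with
  | _ n ih =>
  have hnk : n < Fintype.card α := by nlinarith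
  have hk0 : 0 < Fintype.card α := by omega
  have main : ∀ {K C : Finset (ι → α)} {D E : Finset ι}, Pair K C D E → D.card = n → 1 ≤ n →
      (∀ c ∈ C, ∀ c' ∈ C, hammingDist c c' ≠ n) →
      (∃ x A, K = cube x A) ∨ ∃ x A, C = cube x A := by
    intro K C D E h hD hn hC
    have hE : E.card = n := h.card ▸ hD
    obtain ⟨x0, hx0⟩ := h.nonempty
    obtain ⟨c0, hc0⟩ := h.symm.nonempty
    have hstep : ∀ t, Str K D t → ¬Str K D (t + 1) →
        ∀ J ⊆ E, J.card = t + 1 → ∀ y, lev C J y = 0 := by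
      intro t h1 h2 J hJ hJt y
      simp only [Str, not_forall] at h2
      obtain ⟨I, hI, hne, hIt, a, ha⟩ := h2
      have h3 : I.card = t + 1 := by
        by_contra h'
        exact ha (h1 I hI hne (by omega) a)
      exact (mul_eq_zero.1 (h.lev_mul hI hJ (h3.trans hJt.symm) hne a y)).resolve_left ha
    have h0 : Str K D 0 := fun I _ hne hI => absurd (card_pos.2 hne) (by omega)
    have h1 : Str K D 1 := by
      by_contra h'
      obtain ⟨y, hy, hy'⟩ := Str.far (K := C) (D := E) (t := 1) (s := 0) (fun J hJ hne hJ1 =>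
        hstep 0 h0 h' J hJ (le_antisymm hJ1 (card_pos.2 hne))) one_pos (by omega) (by omega) hc0
        (h.subC c0 hc0)
      exact hC c0 hc0 y hy (by omega)
    obtain ⟨t, ht1, htn, hS, hS'⟩ :
        ∃ t, 1 ≤ t ∧ t ≤ n ∧ Str K D t ∧ (t < n → ¬Str K D (t + 1)) :=
      ⟨Nat.findGreatest (Str K D) n, Nat.le_findGreatest hn h1, Nat.findGreatest_le n,
        Nat.findGreatest_spec hn h1, fun h' => Nat.findGreatest_is_greatest (by omega) h'⟩
    rcases htn.eq_or_lt with rfl | htn
    · refine Or.inl ⟨x0, D, eq_cube_of_card (h.subK x0 hx0) ?_⟩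
      rw [← hS.card subset_rfl hD.le x0]
      exact Nat.le_mul_of_pos_left _ (card_pos.2 ⟨x0, mem_filter.2 ⟨hx0, fun _ _ => rfl⟩⟩)
    have hint : ∀ c ∈ C, ∀ c' ∈ C, hammingDist c c' + t ≤ E.card := by
      intro c hc c' hc'
      by_contra hlt
      have h2 := dist_le_of_mem_cube (h.subC c hc hc) (h.subC c hc hc')
      obtain ⟨y, hy, hy'⟩ := hS.far (s := n - hammingDist c c') (by omega) (by omega) (by omega)
        hx0 (h.subK x0 hx0)
      refine h.dist x0 hx0 y hy c hc c' hc' (fun he => ?_) (by omega)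
      rw [← he, hammingDist_self] at hy'
      omega
    obtain ⟨F, hFE, hFt, hF⟩ := key ht1 (by omega) (by rw [hE]; exact hk) h.subC hint
      (hstep t hS (hS' htn)) hc0
    have hCsub : ∀ c ∈ C, C ⊆ cube c (E \ F) := fun c hc c' hc' =>
      filter_subset_cube (h.subC c hc) F (mem_filter.2 ⟨hc', fun i hi =>
        (hF c' hc' i hi).trans (hF c hc i hi).symm⟩)
    have hEF : (E \ F).card = n - t := by rw [card_sdiff_of_subset hFE, hE, hFt]
    have hpow : Fintype.card α ^ n = Fintype.card α ^ (n - t) * Fintype.card α ^ t := by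
      rw [← pow_add, Nat.sub_add_cancel htn.le]
    by_cases hCc : ∃ x A, C = cube x A
    · exact Or.inr hCc
    have hsl : ∀ I ⊆ D, I.card = t → ∃ A ⊆ D \ I,
        (K.filter fun y => ∀ i ∈ I, y i = x0 i) = cube x0 A ∧
          Fintype.card α ^ A.card * Fintype.card α ^ t = K.card := by
      intro I hI hIt
      have h2 := hS.card hI hIt.le x0
      have hDI : (D \ I).card = n - t := by rw [card_sdiff_of_subset hI, hD, hIt]
      have h3 : Pair (K.filter fun y => ∀ i ∈ I, y i = x0 i) C (D \ I) (E \ F) := by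
        refine ⟨hDI.trans hEF.symm, fun x hx => ?_, hCsub, fun x hx x' hx' =>
          h.dist x (mem_filter.1 hx).1 x' (mem_filter.1 hx').1, ?_⟩
        · rw [cube_eq (filter_subset_cube (h.subK x0 hx0) I hx)]
          exact filter_subset_cube (h.subK x0 hx0) I
        · have h4 := h.big
          rw [hD, hpow, ← h2, hIt, mul_right_comm] at h4
          rw [hDI]
          exact Nat.le_of_mul_le_mul_right h4 (pow_pos hk0 _)
      obtain ⟨x, A, hA⟩ := (ih (n - t) (by omega)
        ((Nat.pow_le_pow_left (by omega) 2).trans hk) h3 hDI).resolve_right hCc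
      have h5 : x0 ∈ cube x A := hA ▸ mem_filter.2 ⟨hx0, fun _ _ => rfl⟩
      rw [← cube_eq h5] at hA
      refine ⟨A, subset_of_cube_subset (hA ▸ filter_subset_cube (h.subK x0 hx0) I), hA, ?_⟩
      rw [← h2, hA, card_cube, hIt]
    obtain ⟨I, hI, hIt⟩ := exists_subset_card_eq (s := D) (n := t) (by omega)
    obtain ⟨A, hAD, hA, hAc⟩ := hsl I hI hIt
    have hAle := card_le_card hAD
    rw [card_sdiff_of_subset hI, hD, hIt] at hAle
    rcases hAle.eq_or_lt with hAe | hAlt
    · exact Or.inl ⟨x0, D, eq_cube_of_card (h.subK x0 hx0) (by rw [hD, hpow, ← hAc, hAe])⟩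
    rcases A.eq_empty_or_nonempty with rfl | ⟨a, ha⟩
    · refine Or.inr ⟨c0, _, eq_cube_of_card (hCsub c0 hc0) ?_⟩
      have h4 := h.big
      rw [hD, hpow, ← hAc, card_empty, pow_zero, one_mul, mul_comm] at h4
      rw [hEF]
      exact Nat.le_of_mul_le_mul_left h4 (pow_pos hk0 _)
    exfalso
    have hAD' : A ⊆ D := hAD.trans sdiff_subset
    have hsame : ∀ I' ⊆ D \ A, I'.card = t →
        (K.filter fun y => ∀ i ∈ I', y i = x0 i) = cube x0 A := by
      intro I' hI' hIt'
      refine (eq_of_subset_of_card_le (fun y hy => mem_filter.2 ⟨?_, fun i hi =>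
        mem_cube.1 hy i (mem_sdiff.1 (hI' hi)).2⟩) (le_of_eq ?_)).symm
      · rw [← hA] at hy
        exact (mem_filter.1 hy).1
      · have h2 := hS.card (hI'.trans sdiff_subset) hIt'.le x0
        rw [← hAc, hIt'] at h2
        rw [card_cube]
        exact Nat.eq_of_mul_eq_mul_right (pow_pos hk0 _) h2
    obtain ⟨I2, haI2, hI2, hI2t⟩ := exists_subsuperset_card_eq
      (singleton_subset_iff.2 (hAD' ha)) (n := t) (by simpa using ht1) (by omega)
    obtain ⟨A2, hA2D, hA2, hA2c⟩ := hsl I2 hI2 hI2t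
    have hcard : A2.card = A.card := Nat.pow_right_injective one_lt_k
      (Nat.eq_of_mul_eq_mul_right (pow_pos hk0 _) (hA2c.trans hAc.symm))
    obtain ⟨b, hb, hbA⟩ : ∃ b ∈ A2, b ∉ A := by
      by_contra! h'
      have : A2 = A := eq_of_subset_of_card_le h' hcard.ge
      exact (mem_sdiff.1 (hA2D (this ▸ ha))).2 (haI2 (mem_singleton_self a))
    obtain ⟨v, hv⟩ := exists_ne (x0 b)
    have hy : Function.update x0 b v ∈ K := by
      have := update_mem_cube x0 hb v
      rw [← hA2] at this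
      exact (mem_filter.1 this).1
    obtain ⟨I', hI', hI't⟩ := exists_subset_card_eq (s := (D \ A).erase b) (n := t) (by
      have := pred_card_le_card_erase (s := D \ A) (a := b)
      rw [card_sdiff_of_subset hAD'] at this
      omega)
    have h6 : Function.update x0 b v ∈ cube x0 A := by
      rw [← hsame I' (hI'.trans (erase_subset _ _)) hI't]
      exact mem_filter.2 ⟨hy, fun i hi => Function.update_of_ne (ne_of_mem_erase (hI' hi)) _ _⟩
    exact hv ((Function.update_self b v x0).symm.trans (mem_cube.1 h6 b hbA))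
  intro K C D E h hD
  obtain ⟨x0, hx0⟩ := h.nonempty
  rcases Nat.eq_zero_or_pos n with rfl | hn
  · exact Or.inl ⟨x0, D, eq_cube_of_card (h.subK x0 hx0)
      (by rw [hD, pow_zero]; exact card_pos.2 ⟨x0, hx0⟩)⟩
  by_cases hC : ∀ c ∈ C, ∀ c' ∈ C, hammingDist c c' ≠ n
  · exact main h hD hn hC
  · push Not at hC
    obtain ⟨c, hc, c', hc', he⟩ := hC
    refine (main h.symm (h.card ▸ hD) hn fun x hx x' hx' he' => ?_).symm
    refine h.dist x hx x' hx' c hc c' hc' (fun hxx => ?_) (he'.trans he.symm)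
    rw [hxx, hammingDist_self] at he'
    omega

theorem pair_univ {K C : Finset (ι → α)} {S : Set ℕ}
    (hK : ∀ y ∈ K, ∀ z ∈ K, y ≠ z → hammingDist y z ∈ S)
    (hC : ∀ y ∈ C, ∀ z ∈ C, y ≠ z → hammingDist y z ∉ S)
    (hKC : Fintype.card α ^ Fintype.card ι ≤ K.card * C.card) : Pair K C univ univ :=
  ⟨rfl, fun _ _ _ _ => mem_cube.2 fun i hi => absurd (mem_univ i) hi,
    fun _ _ _ _ => mem_cube.2 fun i hi => absurd (mem_univ i) hi,
    fun x hx x' hx' c hc c' hc' hne he => by
      refine hC c hc c' hc' (fun h => hne ?_) (he ▸ hK x hx x' hx' hne)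
      rw [h, hammingDist_self] at he
      exact hammingDist_eq_zero.1 he, hKC⟩

/-- If the second family has no pair at distance one, the first family is a subcube. -/
theorem Pair.isCube (hk : (Fintype.card ι + 1) ^ 2 ≤ Fintype.card α) {K C : Finset (ι → α)}
    (h : Pair K C univ univ) (h1 : ∀ c ∈ C, ∀ c' ∈ C, hammingDist c c' ≠ 1) :
    ∃ x A, K = cube x A := by
  rcases Pair.cube_or _ hk h rfl with h2 | ⟨c, A, rfl⟩
  · exact h2
  obtain ⟨x, hx⟩ := h.nonempty
  refine ⟨x, univ, eq_cube_of_card (h.subK x hx) ?_⟩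
  have h3 : A.card = 0 := by
    by_contra h'
    obtain ⟨y, hy, hy'⟩ := exists_dist c (A := A) (s := 1) (by omega)
    exact h1 c (self_mem_cube c A) y hy hy'
  have h4 := h.big
  rwa [card_cube, h3, pow_zero, mul_one] at h4

variable (ι α) in
/-- The largest families of diameter `j + 1` are the subcubes. -/
def Ekr (j : ℕ) : Prop :=
  ∀ F : Finset (ι → α), (∀ x ∈ F, ∀ y ∈ F, hammingDist x y ≤ j + 1) →
    Fintype.card α ^ (j + 1) ≤ F.card → ∃ A : Finset ι, A.card = j + 1 ∧ ∀ x ∈ F, F = cube x A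

theorem Ekr.le {j : ℕ} (hE : Ekr ι α j) {F : Finset (ι → α)}
    (hF : ∀ x ∈ F, ∀ y ∈ F, hammingDist x y ≤ j + 1) : F.card ≤ Fintype.card α ^ (j + 1) := by
  by_contra! h
  obtain ⟨A, hA, h'⟩ := hE F hF h.le
  obtain ⟨x, hx⟩ : F.Nonempty := card_pos.1 (by omega)
  rw [h' x hx, card_cube, hA] at h
  exact lt_irrefl _ h

theorem classify' {S : Set ℕ} (h1 : 1 ∈ S) (hk : (Fintype.card ι + 1) ^ 2 ≤ Fintype.card α)
    {K C : Finset (ι → α)} (hK : ∀ y ∈ K, ∀ z ∈ K, y ≠ z → hammingDist y z ∈ S)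
    (hC : ∀ y ∈ C, ∀ z ∈ C, y ≠ z → hammingDist y z ∉ S)
    (hKC : Fintype.card α ^ Fintype.card ι ≤ K.card * C.card) (hm : 1 ≤ Fintype.card ι) :
    ∃ j, j + 1 ≤ Fintype.card ι ∧ Ekr ι α j ∧
      ∀ s, 1 ≤ s → s ≤ Fintype.card ι → (s ∈ S ↔ s ≤ j + 1) := by
  have hk0 : 0 < Fintype.card α := lt_trans zero_lt_one one_lt_k
  have hC1 : ∀ c ∈ C, ∀ c' ∈ C, hammingDist c c' ≠ 1 := fun c hc c' hc' he =>
    hC c hc c' hc' (fun h => by rw [h, hammingDist_self] at he; omega) (he ▸ h1)
  have hp := pair_univ hK hC hKC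
  obtain ⟨x, A, rfl⟩ := hp.isCube hk hC1
  obtain ⟨c0, hc0⟩ := hp.symm.nonempty
  have hA := card_le_univ A
  have hlow : ∀ s, 1 ≤ s → s ≤ A.card → s ∈ S := by
    intro s hs1 hs
    obtain ⟨y, hy, rfl⟩ := exists_dist x hs
    exact hK x (self_mem_cube x A) y hy (hammingDist_pos.1 hs1)
  have hmin : ∀ c ∈ C, ∀ c' ∈ C, c ≠ c' → A.card < hammingDist c c' := fun c hc c' hc' hne =>
    not_le.1 fun h => hC c hc c' hc' hne (hlow _ (hammingDist_pos.2 hne) h)
  have hstr : Str C univ (Fintype.card ι - A.card) := by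
    intro I _ hne hI y
    obtain ⟨J, hJ, hJI⟩ := exists_subset_card_eq (s := Aᶜ) (n := I.card) (by rwa [card_compl])
    refine (mul_eq_zero.1 (hp.lev_mul (subset_univ J) (subset_univ I) hJI
      (card_pos.1 (hJI ▸ card_pos.2 hne)) x y)).resolve_left (sum_pos (fun z hz => prod_pos
        fun i hi => ?_) ⟨x, self_mem_cube x A⟩).ne'
    rw [wt, if_pos (mem_cube.1 hz i (mem_compl.1 (hJ hi))), mul_one]
    exact k_sub_pos
  have hhigh : ∀ s, A.card < s → s ≤ Fintype.card ι → s ∉ S := by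
    intro s hs hsm
    obtain ⟨y, hy, hy'⟩ := hstr.far (s := Fintype.card ι - s) (by omega) (by simp)
      (by rw [card_univ]; nlinarith) hc0 (hp.subC c0 hc0)
    rw [card_univ] at hy'
    have h2 : hammingDist c0 y = s := by omega
    exact h2 ▸ hC c0 hc0 y hy (hammingDist_pos.1 (by omega))
  obtain ⟨j, hj⟩ : ∃ j, A.card = j + 1 :=
    Nat.exists_eq_succ_of_ne_zero fun h0 => hhigh 1 (by omega) hm h1
  refine ⟨j, by omega, fun F hF hbig => ?_, fun s hs1 hsm =>
    ⟨fun hs => not_lt.1 fun h => hhigh s (by omega) hsm hs, fun hs => hlow s hs1 (by omega)⟩⟩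
  obtain ⟨z, B, rfl⟩ := (pair_univ (K := F) (C := C) (S := {s | s ≤ j + 1})
    (fun y hy z hz _ => hF y hy z hz) (fun y hy z hz hne => by
      have := hmin y hy z hz hne
      simp only [Set.mem_ofPred_eq]
      omega) (hKC.trans (Nat.mul_le_mul_right _ (by rw [card_cube, hj]; exact hbig)))).isCube hk hC1
  refine ⟨B, le_antisymm ?_ ?_, fun u hu => (cube_eq hu).symm⟩
  · obtain ⟨y, hy, hy'⟩ := exists_dist z (A := B) le_rfl
    exact hy' ▸ hF z (self_mem_cube z B) y hy
  · rw [card_cube] at hbig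
    exact (Nat.pow_le_pow_iff_right one_lt_k).1 hbig

end Pool.Agent.MP_92191b_al
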