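import Pool.Agent.MP_92191b_al.Pair

/-! Endomorphisms of the graph joining words at distance at most `j + 1` are uniform. -/

set_option linter.unusedSectionVars false

namespace Pool.Agent.MP_92191b_al

open Finset

variable {ι α : Type} [Fintype ι] [DecidableEq ι] [Fintype α] [DecidableEq α]

/-- The points of the subcube `cube x D` that differ from `z` in every coordinate of `D`. -/
def anti (x : ι → α) (D : Finset ι) (z : ι → α) : Finset (ι → α) :=
  Fintype.piFinset fun i => if i ∈ D then univ.erase (z i) else {x i}

theorem mem_anti {x y z : ι → α} {D : Finset ι} :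
    y ∈ anti x D z ↔ y ∈ cube x D ∧ ∀ i ∈ D, y i ≠ z i := by
  simp only [anti, Fintype.mem_piFinset, mem_cube, ← forall_and]
  refine forall_congr' fun i => ?_
  by_cases h : i ∈ D <;> simp [h]

theorem card_anti (x z : ι → α) (D : Finset ι) :
    (anti x D z).card = (Fintype.card α - 1) ^ D.card := by
  rw [anti, Fintype.card_piFinset]
  simp only [apply_ite card, card_erase_of_mem (mem_univ _), card_univ, card_singleton]
  rw [prod_ite_mem, univ_inter, prod_const]

/-- `f` maps every subcube with directions `A` injectively into a subcube with directions `B`. -/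
structure Good (f : (ι → α) → ι → α) (A B : Finset ι) : Prop where
  card : A.card = B.card
  maps : ∀ x, ∀ y ∈ cube x A, f y ∈ cube (f x) B
  inj : ∀ x, ∀ y ∈ cube x A, f y = f x → y = x

variable {f : (ι → α) → ι → α}

theorem Good.injOn {A B : Finset ι} (h : Good f A B) (x : ι → α) :
    Set.InjOn f (cube x A : Set (ι → α)) := fun y hy z hz e =>
  h.inj z y (by rw [cube_eq hz]; exact hy) e

theorem Good.image {A B : Finset ι} (h : Good f A B) (x : ι → α) :
    (cube x A).image f = cube (f x) B :=
  eq_of_subset_of_card_le (image_subset_iff.2 (h.maps x))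
    (by rw [card_image_of_injOn (h.injOn x), card_cube, card_cube, h.card])

variable [Nontrivial α]

theorem Good.mono {A B A' B' : Finset ι} (h : Good f A B) (h' : Good f A' B') (hA : A ⊆ A') :
    B ⊆ B' := by
  obtain ⟨x⟩ : Nonempty (ι → α) := inferInstance
  refine subset_of_cube_subset (x := f x) (y := f x) ?_
  rw [← h.image, ← h'.image]
  exact image_subset_image (cube_mono hA)

theorem Good.inter {A B A' B' : Finset ι} (h : Good f A B) (h' : Good f A' B') :
    (A ∩ A').card ≤ (B ∩ B').card := by
  obtain ⟨x⟩ : Nonempty (ι → α) := inferInstance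
  have h1 : (cube x (A ∩ A')).card ≤ (cube (f x) (B ∩ B')).card := by
    refine card_le_card_of_injOn f (fun y hy => ?_)
      ((h.injOn x).mono (coe_subset.2 (cube_mono inter_subset_left)))
    rw [mem_coe, ← cube_inter, mem_inter] at hy ⊢
    exact ⟨h.maps x y hy.1, h'.maps x y hy.2⟩
  rw [card_cube, card_cube] at h1
  exact (Nat.pow_le_pow_iff_right one_lt_k).1 h1

theorem Good.extend {j : ℕ} (hall : ∀ I : Finset ι, I.card = j + 1 → ∃ B, Good f I B)
    {A B : Finset ι} (h : Good f A B) (hA : j + 1 ≤ A.card) {b : ι} (hb : b ∉ A) {x : ι → α}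
    {c : α} (hx : f (Function.update x b c) ∉ cube (f x) B) :
    ∃ β, Good f (insert b A) (insert β B) := by
  obtain ⟨β, hβ, hβ'⟩ : ∃ β, β ∉ B ∧ f (Function.update x b c) β ≠ f x β := by
    by_contra! h'
    exact hx (mem_cube.2 h')
  obtain ⟨I, hIA, hI⟩ := exists_subset_card_eq hA
  obtain ⟨a, ha⟩ : I.Nonempty := card_pos.1 (by omega)
  have hbI : b ∉ I.erase a := fun h' => hb (hIA (mem_of_mem_erase h'))
  have hR : (I.erase a).card = j := by rw [card_erase_of_mem ha, hI]; rfl
  obtain ⟨B1, h1⟩ := hall I hI
  obtain ⟨B2, h2⟩ := hall (insert b (I.erase a)) (by rw [card_insert_of_notMem hbI, hR])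
  have hβ2 : β ∈ B2 := by
    by_contra h'
    exact hβ' (mem_cube.1 (h2.maps x _ (update_mem_cube x (mem_insert_self _ _) c)) β h')
  have hB2 : B2 ⊆ insert β B := by
    have h3 : j ≤ (B1 ∩ B2).card := by
      refine le_trans ?_ (h1.inter h2)
      rw [← hR]
      exact card_le_card (subset_inter (erase_subset _ _) (subset_insert _ _))
    have h4 : β ∉ B1 ∩ B2 := fun h' => hβ (h1.mono h hIA (mem_inter.1 h').1)
    have h5 : insert β (B1 ∩ B2) = B2 := by
      refine eq_of_subset_of_card_le (insert_subset hβ2 inter_subset_right) ?_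
      rw [card_insert_of_notMem h4, ← h2.card, card_insert_of_notMem hbI, hR]
      omega
    rw [← h5]
    exact insert_subset_insert _ (inter_subset_left.trans (h1.mono h hIA))
  have hsplit : ∀ y : ι → α, ∀ z ∈ cube y (insert b A), z ∈ cube (Function.update y b (z b)) A := by
    intro y z hz
    refine mem_cube.2 fun i hi => ?_
    by_cases hib : i = b
    · rw [hib, Function.update_self]
    · rw [Function.update_of_ne hib]
      exact mem_cube.1 hz i (by simp [hib, hi])
  refine ⟨β, by rw [card_insert_of_notMem hb, card_insert_of_notMem hβ, h.card],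
    fun y z hz => ?_, fun y z hz e => ?_⟩
  · have h6 := cube_mono hB2 (h2.maps y _ (update_mem_cube y (mem_insert_self _ _) (z b)))
    rw [← cube_eq h6]
    exact cube_mono (subset_insert _ _) (h.maps _ z (hsplit y z hz))
  · have hline : ∀ u ∈ cube y (insert b (I.erase a)),
        f u β = f (Function.update y b (u b)) β := fun u hu =>
      mem_cube.1 (h.maps _ u (hsplit y u (cube_mono (insert_subset_insert _
        ((erase_subset _ _).trans hIA)) hu))) β hβ
    have hsurj : Function.Surjective fun c => f (Function.update y b c) β := by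
      intro c'
      have h7 : Function.update (f y) β c' ∈ (cube y (insert b (I.erase a))).image f := by
        rw [h2.image]
        exact update_mem_cube _ hβ2 _
      obtain ⟨u, hu, hu'⟩ := mem_image.1 h7
      exact ⟨u b, (hline u hu).symm.trans (by rw [hu', Function.update_self])⟩
    have h8 : z b = y b := by
      refine Finite.injective_iff_surjective.2 hsurj ?_
      rw [Function.update_eq_self, ← e]
      exact (mem_cube.1 (h.maps _ z (hsplit y z hz)) β hβ).symm
    have h9 := hsplit y z hz
    rw [h8, Function.update_eq_self] at h9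
    exact h.inj y z h9 e

theorem uniform_of_good {j : ℕ} (hj : j + 1 ≤ Fintype.card ι)
    (hall : ∀ I : Finset ι, I.card = j + 1 → ∃ B, Good f I B) (a b : ι → α) :
    (univ.filter fun x => f x = f a).card = (univ.filter fun x => f x = f b).card := by
  classical
  obtain ⟨I, -, hI⟩ := exists_subset_card_eq (s := (univ : Finset ι)) hj
  obtain ⟨A, hA, hmax⟩ := exists_max_image
    (univ.filter fun A : Finset ι => j + 1 ≤ A.card ∧ ∃ B, Good f A B) card
    ⟨I, mem_filter.2 ⟨mem_univ _, hI.ge, hall I hI⟩⟩
  obtain ⟨hA, B, h⟩ := (mem_filter.1 hA).2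
  have hstep : ∀ x i c, f (Function.update x i c) ∈ cube (f x) B := by
    intro x i c
    by_cases hi : i ∈ A
    · exact h.maps x _ (update_mem_cube x hi c)
    by_contra hx
    obtain ⟨β, h'⟩ := h.extend hall hA hi hx
    have := hmax (insert i A) (mem_filter.2 ⟨mem_univ _,
      hA.trans (card_le_card (subset_insert _ _)), _, h'⟩)
    rw [card_insert_of_notMem hi] at this
    omega
  have hin : ∀ x y, f x ∈ cube (f y) B := fun x y =>
    cube_induction (p := fun x => f x ∈ cube (f y) B) univ (self_mem_cube _ _)
      (fun z i _ c hz => by rw [← cube_eq hz]; exact hstep z i c) x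
      (mem_cube.2 fun i hi => absurd (mem_univ i) hi)
  have key : ∀ x, (univ.filter fun y => f y = f x).card * Fintype.card α ^ A.card =
      (univ : Finset (ι → α)).card * 1 := by
    intro x
    refine card_mul_eq_card_mul (fun y z => z ∈ cube y A) (fun y _ => ?_) fun z _ => ?_
    · rw [← card_cube y A]
      congr 1
      ext z
      simp [mem_bipartiteAbove]
    · have h1 := hin x z
      rw [← h.image] at h1
      obtain ⟨y, hy, hy'⟩ := mem_image.1 h1
      refine card_eq_one.2 ⟨y, ?_⟩
      ext u
      simp only [mem_bipartiteBelow, mem_filter, mem_univ, true_and, mem_singleton]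
      exact ⟨fun hu => h.injOn z (mem_cube_symm hu.2) hy (hu.1.trans hy'.symm),
        fun hu => hu ▸ ⟨hy', mem_cube_symm hy⟩⟩
  exact Nat.eq_of_mul_eq_mul_right (pow_pos (lt_trans zero_lt_one one_lt_k) _)
    ((key a).trans (key b).symm)

theorem exists_good (hk3 : 2 < Fintype.card α) {j : ℕ} (hE : Ekr ι α j)
    (hf : ∀ x y, x ≠ y → hammingDist x y ≤ j + 1 → f x ≠ f y ∧ hammingDist (f x) (f y) ≤ j + 1)
    (I : Finset ι) (hI : I.card = j + 1) : ∃ B, Good f I B := by
  have hd : ∀ x y, hammingDist x y ≤ j + 1 → hammingDist (f x) (f y) ≤ j + 1 := by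
    intro x y h
    by_cases hxy : x = y
    · simp [hxy]
    · exact (hf x y hxy h).2
  have hinj : ∀ x : ι → α, Set.InjOn f (cube x I : Set (ι → α)) := by
    intro x y hy z hz e
    by_contra h
    exact (hf y z h ((dist_le_of_mem_cube (x := x) hy hz).trans hI.le)).1 e
  have h1 : ∀ x, ∃ B : Finset ι, B.card = j + 1 ∧ (cube x I).image f = cube (f x) B := by
    intro x
    obtain ⟨B, hB, h⟩ := hE ((cube x I).image f) (by
      intro u hu v hv
      obtain ⟨y, hy, rfl⟩ := mem_image.1 hu
      obtain ⟨z, hz, rfl⟩ := mem_image.1 hv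
      exact hd y z ((dist_le_of_mem_cube hy hz).trans hI.le))
      (by rw [card_image_of_injOn (hinj x), card_cube, hI])
    exact ⟨B, hB, h _ (mem_image_of_mem f (self_mem_cube x I))⟩
  choose φ hφ hφ' using h1
  have hpar : ∀ x b c, φ (Function.update x b c) = φ x := by
    intro x b c
    refine eq_of_subset_of_card_le (fun β hβ => by_contra fun hβ' => ?_) (by rw [hφ, hφ])
    set x' := Function.update x b c with hx'
    obtain ⟨c1, hc1, c2, hc2, hc⟩ := one_lt_card.1 (show 1 < (univ.erase (f x β)).card by
      rw [card_erase_of_mem (mem_univ _), card_univ]; omega)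
    have hpre : ∀ c', ∃ y ∈ cube x' I, f y = Function.update (f x') β c' := fun c' =>
      mem_image.1 (by rw [hφ']; exact update_mem_cube _ hβ c')
    obtain ⟨y1, hy1, e1⟩ := hpre c1
    obtain ⟨y2, hy2, e2⟩ := hpre c2
    obtain ⟨a, ha⟩ : ∃ a, y2 a ≠ y1 a := by
      by_contra! h
      have h' := congrFun (e1.symm.trans ((funext h : y2 = y1) ▸ e2)) β
      rw [Function.update_self, Function.update_self] at h'
      exact hc h'
    have haI : a ∈ I := by_contra fun h =>
      ha ((mem_cube.1 hy2 a h).trans (mem_cube.1 hy1 a h).symm)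
    have hfar : ∀ c' y', c' ≠ f x β → y' ∈ cube x' I → f y' = Function.update (f x') β c' →
        ∀ y ∈ cube x I, f y ∈ anti (f x) (φ x) (f x') → y ∈ anti x I y' := by
      intro c' y' hc' hy' e y hy hfy
      refine mem_anti.2 ⟨hy, fun i hi hyi => ?_⟩
      have h2 : y' ∈ cube y (insert b (I.erase i)) := by
        refine mem_cube.2 fun l hl => ?_
        rw [mem_insert, not_or] at hl
        by_cases hli : l = i
        · rw [hli, hyi]
        · have hlI : l ∉ I := fun h => hl.2 (mem_erase.2 ⟨hli, h⟩)
          rw [mem_cube.1 hy' l hlI, mem_cube.1 hy l hlI, hx', Function.update_of_ne hl.1]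
      have h3 := dist_le_of_mem_cube (self_mem_cube y _) h2
      have h4 := card_insert_le b (I.erase i)
      rw [card_erase_of_mem hi] at h4
      have h5 := hd y y' (by omega)
      have h6 : insert β (φ x) ⊆ univ.filter fun l => f y l ≠ f y' l := by
        intro l hl
        refine mem_filter.2 ⟨mem_univ _, ?_⟩
        rw [e]
        rcases mem_insert.1 hl with rfl | hl
        · rw [Function.update_self, mem_cube.1 (mem_anti.1 hfy).1 l hβ']
          exact hc'.symm
        · rw [Function.update_of_ne (fun h => hβ' (by rw [← h]; exact hl))]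
          exact (mem_anti.1 hfy).2 l hl
      have h7 := card_le_card h6
      rw [card_insert_of_notMem hβ', hφ] at h7
      rw [hammingDist] at h5
      omega
    have h8 : anti (f x) (φ x) (f x') ⊆ (anti x I y1 ∩ anti x I y2).image f := by
      intro p hp
      have hp' := (mem_anti.1 hp).1
      rw [← hφ'] at hp'
      obtain ⟨y, hy, rfl⟩ := mem_image.1 hp'
      exact mem_image_of_mem f (mem_inter.2 ⟨hfar c1 y1 (mem_erase.1 hc1).1 hy1 e1 y hy hp,
        hfar c2 y2 (mem_erase.1 hc2).1 hy2 e2 y hy hp⟩)
    have h9 : (anti x I y1 ∩ anti x I y2).card < (anti x I y1).card := by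
      obtain ⟨w, hw⟩ : (anti x I y1).Nonempty :=
        card_pos.1 (by rw [card_anti]; exact pow_pos (by omega) _)
      refine card_lt_card ((ssubset_iff_of_subset inter_subset_left).2
        ⟨Function.update w a (y2 a), mem_anti.2 ⟨?_, fun i hi => ?_⟩, fun h => ?_⟩)
      · rw [← cube_eq (mem_anti.1 hw).1]
        exact update_mem_cube w haI _
      · by_cases hia : i = a
        · rw [hia, Function.update_self]
          exact ha
        · rw [Function.update_of_ne hia]
          exact (mem_anti.1 hw).2 i hi
      · exact (mem_anti.1 (mem_inter.1 h).2).2 a haI (Function.update_self _ _ _)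
    have h10 := (card_le_card h8).trans card_image_le
    rw [card_anti, hφ] at h10
    rw [card_anti, hI] at h9
    omega
  obtain ⟨x0⟩ : Nonempty (ι → α) := inferInstance
  have hconst : ∀ x, φ x = φ x0 := fun x =>
    cube_induction (p := fun x => φ x = φ x0) univ rfl (fun z i _ c hz => (hpar z i c).trans hz) x
      (mem_cube.2 fun i hi => absurd (mem_univ i) hi)
  refine ⟨φ x0, hI.trans (hφ x0).symm, fun x y hy => ?_,
    fun x y hy e => hinj x hy (self_mem_cube x I) e⟩
  rw [← hconst x, ← hφ']
  exact mem_image_of_mem f hy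

theorem uniform_of_small (hk : 2 < Fintype.card α) {j : ℕ} (hE : Ekr ι α j)
    (hj : j + 1 ≤ Fintype.card ι)
    (hf : ∀ x y, x ≠ y → hammingDist x y ≤ j + 1 → f x ≠ f y ∧ hammingDist (f x) (f y) ≤ j + 1)
    (a b : ι → α) :
    (univ.filter fun x => f x = f a).card = (univ.filter fun x => f x = f b).card :=
  uniform_of_good hj (exists_good hk hE hf) a b

end Pool.Agent.MP_92191b_al
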